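import Mathlib

set_option autoImplicit false

namespace Pool.Agent.Hhelper63.Lens

open Finset

/-- Index set of the factors: triples `(i, j, ε)` with `i ≠ j`. -/
abbrev Idx (n : ℕ) := {α : Fin n × Fin n × ℤˣ // α.1 ≠ α.2.1}

/-- The product of the factors with second index `j`. -/
def Dprod {R : Type*} [CommMonoid R] {n : ℕ} (u : Idx n → R) (j : Fin n) : R :=
  ∏ α ∈ univ.filter (fun α : Idx n => α.1.2.1 = j), u α

/-- The second elementary expression `∑ j, ∏ j' ≠ j, D j'`. -/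
def esum {R κ : Type*} [CommSemiring R] [Fintype κ] [DecidableEq κ] (D : κ → R) : R :=
  ∑ j, ∏ j' ∈ univ.erase j, D j'

theorem prod_Dprod {R : Type*} [CommMonoid R] {n : ℕ} (u : Idx n → R) :
    ∏ j, Dprod u j = ∏ α, u α := by
  unfold Dprod
  exact Finset.prod_fiberwise univ (fun α : Idx n => α.1.2.1) u

theorem map_Dprod {R S : Type*} [CommSemiring R] [CommSemiring S] {n : ℕ} (φ : R →+* S)
    (u : Idx n → R) (j : Fin n) : φ (Dprod u j) = Dprod (fun α => φ (u α)) j := by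
  unfold Dprod
  rw [map_prod]

theorem map_esum {R S κ : Type*} [CommSemiring R] [CommSemiring S] [Fintype κ] [DecidableEq κ]
    (φ : R →+* S) (D : κ → R) : φ (esum D) = esum (fun j => φ (D j)) := by
  unfold esum
  rw [map_sum]
  simp_rw [map_prod]

theorem esum_of_eq_zero {R κ : Type*} [CommSemiring R] [Fintype κ] [DecidableEq κ]
    (D : κ → R) (j : κ)
    (h : D j = 0) : esum D = ∏ j' ∈ univ.erase j, D j' := by
  unfold esum
  apply Finset.sum_eq_single j
  · intro b _ hb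
    exact Finset.prod_eq_zero (i := j) (by simp [hb.symm]) h
  · simp

theorem Dprod_eq_zero_iff {R : Type*} [CommRing R] [IsDomain R] {n : ℕ} (u : Idx n → R)
    (j : Fin n) : Dprod u j = 0 ↔ ∃ α : Idx n, α.1.2.1 = j ∧ u α = 0 := by
  unfold Dprod
  rw [Finset.prod_eq_zero_iff]
  simp

theorem esum_eq_sum_inv {K κ : Type*} [Field K] [Fintype κ] [DecidableEq κ] (E : κ → K)
    (hE : ∀ j, E j ≠ 0) : esum E = (∑ j, (E j)⁻¹) * ∏ j, E j := by
  unfold esum
  rw [Finset.sum_mul]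
  refine Finset.sum_congr rfl fun j _ => ?_
  rw [← Finset.mul_prod_erase univ E (mem_univ j), inv_mul_cancel_left₀ (hE j)]

/-- `(∑ 1/D) = (∑ 1/D')` in cleared form. -/
theorem esum_mul_prod_of_sum_inv {K κ κ' : Type*} [Field K] [Fintype κ] [DecidableEq κ]
    [Fintype κ'] [DecidableEq κ'] (D : κ → K) (D' : κ' → K)
    (hD : ∀ j, D j ≠ 0) (hD' : ∀ j, D' j ≠ 0) (h : ∑ j, (D j)⁻¹ = ∑ j, (D' j)⁻¹) :
    esum D * ∏ k, D' k = esum D' * ∏ j, D j := by
  rw [esum_eq_sum_inv D hD, esum_eq_sum_inv D' hD', h]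
  ring

theorem sum_inv_of_esum_mul_prod {K κ κ' : Type*} [Field K] [Fintype κ] [DecidableEq κ]
    [Fintype κ'] [DecidableEq κ'] (D : κ → K) (D' : κ' → K)
    (hD : ∀ j, D j ≠ 0) (hD' : ∀ j, D' j ≠ 0)
    (h : esum D * ∏ k, D' k = esum D' * ∏ j, D j) :
    ∑ j, (D j)⁻¹ = ∑ j, (D' j)⁻¹ := by
  rw [esum_eq_sum_inv D hD, esum_eq_sum_inv D' hD'] at h
  have h1 : ∏ j, D j ≠ 0 := Finset.prod_ne_zero_iff.mpr fun j _ => hD j
  have h2 : ∏ j, D' j ≠ 0 := Finset.prod_ne_zero_iff.mpr fun j _ => hD' j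
  apply mul_right_cancel₀ h1
  apply mul_right_cancel₀ h2
  linear_combination h

/-- If `P j * D j = w` for all `j` then `w * esum D = (∑ P) * ∏ D`. -/
theorem mul_esum {R κ : Type*} [CommRing R] [Fintype κ] [DecidableEq κ] (D P : κ → R) (w : R)
    (h : ∀ j, P j * D j = w) : w * esum D = (∑ j, P j) * ∏ j, D j := by
  unfold esum
  rw [Finset.mul_sum, Finset.sum_mul]
  refine Finset.sum_congr rfl fun j _ => ?_
  rw [← Finset.mul_prod_erase univ D (mem_univ j), ← mul_assoc, h j]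

/-- The product over the index set with second index `j`, written out. -/
theorem Dprod_eq {R : Type*} [CommMonoid R] {n : ℕ} (w : Fin n → Fin n → ℤˣ → R) (j : Fin n) :
    Dprod (fun α : Idx n => w α.1.1 α.1.2.1 α.1.2.2) j =
      ∏ i ∈ univ.erase j, (w i j 1 * w i j (-1)) := by
  have h1 : ∀ i, w i j 1 * w i j (-1) = ∏ ε : ℤˣ, w i j ε := by
    intro i
    rw [show (univ : Finset ℤˣ) = {1, -1} from rfl, Finset.prod_pair (by decide)]
  simp_rw [h1]
  rw [← Finset.prod_product' (univ.erase j) univ (fun i ε => w i j ε)]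
  unfold Dprod
  refine Finset.prod_bij' (fun α _ => (α.1.1, α.1.2.2))
    (fun p hp => ⟨(p.1, j, p.2), Finset.ne_of_mem_erase (Finset.mem_product.mp hp).1⟩)
    ?_ ?_ ?_ ?_ ?_
  · intro α hα
    rw [Finset.mem_filter] at hα
    rw [Finset.mem_product]
    refine ⟨Finset.mem_erase.mpr ⟨?_, mem_univ _⟩, mem_univ _⟩
    have := α.2
    rw [hα.2] at this
    exact this
  · intro p hp
    rw [Finset.mem_filter]
    exact ⟨mem_univ _, rfl⟩
  · intro α hα
    rw [Finset.mem_filter] at hα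
    ext1
    change (α.1.1, j, α.1.2.2) = α.1
    rw [← hα.2]
  · intro p hp
    rfl
  · intro α hα
    rw [Finset.mem_filter] at hα
    simp only
    rw [hα.2]

end Pool.Agent.Hhelper63.Lens
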