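import Mathlib

set_option autoImplicit false

namespace Pool.Agent.Hhelper63.Lens

open AddMonoidAlgebra

variable {L : Type} [Field L] [CharZero L]

/-- Characters of the additive group of `L` with prescribed values on a linearly independent
family. -/
theorem exists_char [IsAlgClosed L] {κ : Type} (v : κ → L) (hv : LinearIndependent ℚ v)
    (w : κ → Lˣ) : ∃ χ : L →+ Additive Lˣ, ∀ c, χ (v c) = Additive.ofMul (w c) := by
  let _ : DivisibleBy (Additive Lˣ) ℕ := divisibleByOfSMulRightSurj _ _ (by
    intro n hn a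
    obtain ⟨z, hz⟩ := IsAlgClosed.exists_pow_nat_eq ((a.toMul : Lˣ) : L) (Nat.pos_of_ne_zero hn)
    have hz0 : z ≠ 0 := by
      rintro rfl
      rw [zero_pow hn] at hz
      exact (Units.ne_zero _ hz.symm)
    refine ⟨Additive.ofMul (Units.mk0 z hz0), ?_⟩
    change n • Additive.ofMul (Units.mk0 z hz0) = a
    rw [← ofMul_pow]
    apply Additive.toMul.injective
    rw [toMul_ofMul]
    ext
    simp [hz])
  let _ : DivisibleBy (Additive Lˣ) ℤ := AddGroup.divisibleByIntOfDivisibleByNat _
  have hvZ : LinearIndependent ℤ v := hv.restrict_scalars (by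
    intro a b hab
    simpa using hab)
  obtain ⟨χ, hχ⟩ := (Module.Baer.of_divisible (Additive Lˣ)).extension_property_addMonoidHom
    (Finsupp.linearCombination ℤ v).toAddMonoidHom hvZ
    (Finsupp.linearCombination ℤ (fun c => Additive.ofMul (w c))).toAddMonoidHom
  refine ⟨χ, fun c => ?_⟩
  have := DFunLike.congr_fun hχ (Finsupp.single c 1)
  simpa using this

/-- Specialisation homomorphisms of the group algebra of the additive group of `L`. -/
theorem exists_special [IsAlgClosed L] {κ : Type} (v : κ → L) (hv : LinearIndependent ℚ v)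
    (w : κ → Lˣ) :
    ∃ (R : Type) (_ : CommRing R) (_ : IsDomain R) (φ : AddMonoidAlgebra L L →+* R),
      (∀ c (ζ : L), φ (1 - single (v c) ζ) = 0 ↔ ζ * w c = 1) ∧
      (∀ b (ζ : L), b ∉ Submodule.span ℚ (Set.range v) → φ (1 - single b ζ) ≠ 0) ∧
      (∀ (ζ : L), φ (1 - single 0 ζ) = 0 ↔ ζ = 1) := by
  obtain ⟨χ, hχ⟩ := exists_char v hv w
  let W := Submodule.span ℚ (Set.range v)
  let g : Multiplicative L →* AddMonoidAlgebra L (L ⧸ W) :=
    { toFun := fun a => single (W.mkQ a.toAdd) ((χ a.toAdd).toMul : L)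
      map_one' := by simp [one_def]
      map_mul' := by
        intro a b
        rw [single_mul_single]
        simp }
  let φ : AddMonoidAlgebra L L →+* AddMonoidAlgebra L (L ⧸ W) :=
    liftNCRingHom (algebraMap L (AddMonoidAlgebra L (L ⧸ W))) g (fun x y => Commute.all _ _)
  have hφ : ∀ a ζ, φ (single a ζ) = single (W.mkQ a) (ζ * ((χ a).toMul : L)) := by
    intro a ζ
    change liftNCRingHom _ _ _ _ = _
    rw [liftNCRingHom_single]
    change algebraMap L (AddMonoidAlgebra L (L ⧸ W)) ζ * single (W.mkQ a) ((χ a).toMul : L) = _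
    rw [AddMonoidAlgebra.coe_algebraMap]
    simp [single_mul_single]
  refine ⟨AddMonoidAlgebra L (L ⧸ W), inferInstance, inferInstance, φ, ?_, ?_, ?_⟩
  · intro c ζ
    have h0 : W.mkQ (v c) = 0 := by
      rw [Submodule.mkQ_apply, Submodule.Quotient.mk_eq_zero]
      exact Submodule.subset_span ⟨c, rfl⟩
    rw [map_sub, map_one, hφ, h0, hχ, one_def, sub_eq_zero, single_right_inj]
    simp [eq_comm]
  · intro b ζ hb
    have h0 : W.mkQ b ≠ 0 := by
      rw [Submodule.mkQ_apply, Ne, Submodule.Quotient.mk_eq_zero]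
      exact hb
    rw [map_sub, map_one, hφ, one_def, sub_ne_zero]
    intro h
    rw [single_inj] at h
    rcases h with ⟨h, -⟩ | ⟨h, -⟩
    · exact h0 h.symm
    · exact one_ne_zero h
  · intro ζ
    rw [map_sub, map_one, hφ, map_zero, map_zero, one_def, sub_eq_zero, single_right_inj]
    simp [eq_comm]

end Pool.Agent.Hhelper63.Lens
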