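import Mathlib
import Pool.Agent.Hhelper63.Lens.Basic
import Pool.Agent.Hhelper63.Lens.Special

set_option autoImplicit false

namespace Pool.Agent.Hhelper63.Lens

open Finset AddMonoidAlgebra

variable {L : Type} [Field L] [CharZero L] {n : ℕ}

/-- The exponent `1 + ε x_i / x_j` attached to the index `(i, j, ε)`. -/
def aexp (x : Fin n → L) (α : Idx n) : L := 1 + ((α.1.2.2 : ℤ) : L) * (x α.1.1 / x α.1.2.1)

/-- The factor `1 - ζ E^a`. -/
noncomputable def fac (x : Fin n → L) (z : Idx n → Lˣ) (α : Idx n) : AddMonoidAlgebra L L :=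
  1 - single (aexp x α) (z α : L)

/-- Genericity of a point. -/
structure Generic (x : Fin n → L) : Prop where
  h0 : ∃ l : L →ₗ[ℚ] ℚ, l 1 = 1 ∧ ∀ i j, i ≠ j → l (x i / x j) = 0
  h1 : ∀ i j, i ≠ j → ∃ l : L →ₗ[ℚ] ℚ, l 1 = 0 ∧ l (x i / x j) = 1 ∧
    ∀ i' j', i' ≠ j' → ¬ (i' = i ∧ j' = j) → l (x i' / x j') = 0
  hm : ∀ i j k l, i ≠ j → k ≠ l → ∀ e : ℤˣ,
    x i / x j * (x k / x l) = ((e : ℤ) : L) → k = j ∧ l = i

theorem lin_aexp (l : L →ₗ[ℚ] ℚ) (x : Fin n → L) (α : Idx n) :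
    l (aexp x α) = l 1 + ((α.1.2.2 : ℤ) : ℚ) * l (x α.1.1 / x α.1.2.1) := by
  unfold aexp
  rw [map_add, ← zsmul_eq_mul, map_zsmul, zsmul_eq_mul]

theorem int_unit_ne_zero (e : ℤˣ) : ((e : ℤ) : ℚ) ≠ 0 := by
  exact_mod_cast e.ne_zero

/-- distinct exponents are not proportional -/
theorem aexp_not_mem_span {x : Fin n → L} (hx : Generic x) {α β : Idx n} (hαβ : α ≠ β) :
    aexp x β ∉ Submodule.span ℚ {aexp x α} := by
  intro h
  obtain ⟨c, hc⟩ := Submodule.mem_span_singleton.mp h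
  by_cases hij : β.1.1 = α.1.1 ∧ β.1.2.1 = α.1.2.1
  · obtain ⟨l0, hl0, hl0'⟩ := hx.h0
    obtain ⟨l1, hl1, hl1', hl1''⟩ := hx.h1 α.1.1 α.1.2.1 α.2
    have e0 := congrArg l0 hc
    have e1 := congrArg l1 hc
    rw [map_smul, lin_aexp, lin_aexp, hl0, hl0' _ _ α.2, hl0' _ _ β.2] at e0
    rw [map_smul, lin_aexp, lin_aexp, hl1, hij.1, hij.2, hl1'] at e1
    simp only [mul_zero, add_zero, smul_eq_mul, mul_one, zero_add] at e0 e1
    subst e0
    rw [one_mul] at e1
    have e2 : α.1.2.2 = β.1.2.2 := by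
      ext
      exact_mod_cast e1
    apply hαβ
    ext1
    ext
    · exact congrArg Fin.val hij.1.symm
    · exact congrArg Fin.val hij.2.symm
    · rw [e2]
  · obtain ⟨l1, hl1, hl1', hl1''⟩ := hx.h1 β.1.1 β.1.2.1 β.2
    have e1 := congrArg l1 hc
    rw [map_smul, lin_aexp, lin_aexp, hl1, hl1', hl1'' _ _ α.2
      (fun h => hij ⟨h.1.symm, h.2.symm⟩)] at e1
    simp only [mul_zero, add_zero, smul_eq_mul, mul_one, zero_add] at e1
    exact int_unit_ne_zero _ e1.symm

theorem aexp_ne_zero {x : Fin n → L} (hx : Generic x) (α : Idx n) : aexp x α ≠ 0 := by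
  intro h
  obtain ⟨l0, hl0, hl0'⟩ := hx.h0
  have e0 := congrArg l0 h
  rw [lin_aexp, hl0, hl0' _ _ α.2] at e0
  simp at e0

/-- Step 1: every factor on the generic side has a partner. -/
theorem match_exists [IsAlgClosed L] (x y : Fin n → L) (z z' : Idx n → Lˣ) (hx : Generic x)
    (h3 : ∀ β : Idx n, aexp y β = 0 → (z' β : L) ≠ 1)
    (h4 : esum (Dprod (fac x z)) * ∏ k, Dprod (fac y z') k =
      esum (Dprod (fac y z')) * ∏ j, Dprod (fac x z) j) (α : Idx n) :
    ∃ β : Idx n, aexp y β ≠ 0 ∧ (∃ c : ℚ, aexp y β = c • aexp x α) ∧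
      (aexp y β = aexp x α → z' β = z α) := by
  have hv : LinearIndependent ℚ (fun _ : Unit => aexp x α) :=
    linearIndependent_unique_iff.mpr (aexp_ne_zero hx α)
  obtain ⟨R, _, _, φ, hφ1, hφ2, hφ3⟩ := exists_special (fun _ : Unit => aexp x α) hv
    (fun _ => (z α)⁻¹)
  rw [Set.range_const] at hφ2
  have hα : φ (fac x z α) = 0 := by
    unfold fac
    rw [hφ1 ()]
    simp
  have hne : ∀ γ : Idx n, γ ≠ α → φ (fac x z γ) ≠ 0 := fun γ hγ =>
    hφ2 _ _ (aexp_not_mem_span hx hγ.symm)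
  have hD0 : Dprod (fun γ => φ (fac x z γ)) α.1.2.1 = 0 := by
    rw [Dprod_eq_zero_iff]
    exact ⟨α, rfl, hα⟩
  have hDne : ∀ j, j ≠ α.1.2.1 → Dprod (fun γ => φ (fac x z γ)) j ≠ 0 := by
    intro j hj h
    rw [Dprod_eq_zero_iff] at h
    obtain ⟨γ, h1, h2⟩ := h
    by_cases hγ : γ = α
    · subst hγ
      exact hj h1.symm
    · exact hne γ hγ h2
  have h5 := congrArg φ h4
  rw [map_mul, map_mul, map_esum, map_esum, map_prod, map_prod] at h5
  simp only [map_Dprod] at h5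
  rw [Finset.prod_eq_zero (i := α.1.2.1) (mem_univ _) hD0, mul_zero,
    esum_of_eq_zero _ _ hD0, mul_eq_zero] at h5
  rcases h5 with h5 | h5
  · rw [Finset.prod_eq_zero_iff] at h5
    obtain ⟨j, hj, hj'⟩ := h5
    exact absurd hj' (hDne j (Finset.ne_of_mem_erase hj))
  · rw [prod_Dprod, Finset.prod_eq_zero_iff] at h5
    obtain ⟨β, -, hβ⟩ := h5
    refine ⟨β, ?_, ?_, ?_⟩
    · intro h0
      have h00 := h3 β h0
      apply h00
      rw [← hφ3, ← h0]
      exact hβ
    · by_contra hc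
      refine hφ2 (aexp y β) (z' β : L) ?_ hβ
      intro hmem
      obtain ⟨c, hc'⟩ := Submodule.mem_span_singleton.mp hmem
      exact hc ⟨c, hc'.symm⟩
    · intro heq
      unfold fac at hβ
      rw [heq, hφ1 ()] at hβ
      have h7 : (z' β) * (z α)⁻¹ = 1 := Units.ext (by rw [Units.val_mul]; exact hβ)
      rwa [mul_inv_eq_one] at h7

/-- Step 2: the partners form a bijection with good properties. -/
theorem match_bij [IsAlgClosed L] (x y : Fin n → L) (z z' : Idx n → Lˣ) (hx : Generic x)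
    (h3 : ∀ β : Idx n, aexp y β = 0 → (z' β : L) ≠ 1)
    (h4 : esum (Dprod (fac x z)) * ∏ k, Dprod (fac y z') k =
      esum (Dprod (fac y z')) * ∏ j, Dprod (fac x z) j) :
    ∃ f : Idx n → Idx n, Function.Bijective f ∧
      (∀ α, aexp y (f α) = aexp x α ∧ z' (f α) = z α) := by
  choose f hf0 hf1 hf2 using match_exists x y z z' hx h3 h4
  have hinj : Function.Injective f := by
    intro α α' h
    by_contra hne
    obtain ⟨c, hc⟩ := hf1 α
    obtain ⟨c', hc'⟩ := hf1 α'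
    have h1 := hf0 α
    rw [← h, hc] at hc'
    rw [hc] at h1
    have hc0 : c ≠ 0 := by
      rintro rfl
      simp at h1
    apply aexp_not_mem_span hx (Ne.symm hne)
    rw [Submodule.mem_span_singleton]
    refine ⟨c⁻¹ * c', ?_⟩
    rw [mul_smul, ← hc', inv_smul_smul₀ hc0]
  have hbij : Function.Bijective f := Finite.injective_iff_bijective.mp hinj
  refine ⟨f, hbij, ?_⟩
  -- it suffices to show the exponent statement
  suffices h : ∀ α, aexp y (f α) = aexp x α from fun α => ⟨h α, hf2 α (h α)⟩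
  intro α
  -- the opposite index
  obtain ⟨α', hα'⟩ := hbij.surjective ⟨((f α).1.1, (f α).1.2.1, -(f α).1.2.2), (f α).2⟩
  have hne : α ≠ α' := by
    rintro rfl
    have := congrArg (fun β : Idx n => β.1.2.2) hα'
    simp only at this
    exact absurd this.symm (by
      rcases Int.units_eq_one_or (f α).1.2.2 with h | h <;> rw [h] <;> decide)
  obtain ⟨c, hc⟩ := hf1 α
  obtain ⟨c', hc'⟩ := hf1 α'
  have h1 := hf0 α
  have h1' := hf0 α'
  have hc0 : c ≠ 0 := by
    rintro rfl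
    rw [zero_smul] at hc
    exact h1 hc
  have hsum : aexp y (f α) + aexp y (f α') = 2 := by
    rw [hα']
    unfold aexp
    simp only [Units.val_neg, Int.cast_neg, neg_mul]
    ring
  rw [hc, hc'] at hsum
  have h2 : (2 : L) = (2 : ℚ) • (1 : L) := by
    rw [Algebra.smul_def]
    simp
  rw [h2] at hsum
  have hij : α.1.1 = α'.1.1 ∧ α.1.2.1 = α'.1.2.1 := by
    by_contra hij
    obtain ⟨l1, hl1, hl1', hl1''⟩ := hx.h1 α.1.1 α.1.2.1 α.2
    have e1 := congrArg l1 hsum
    rw [map_add, map_smul, map_smul, map_smul, lin_aexp, lin_aexp, hl1, hl1',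
      hl1'' _ _ α'.2 (fun h => hij ⟨h.1.symm, h.2.symm⟩)] at e1
    simp only [mul_zero, add_zero, smul_eq_mul, mul_one, zero_add] at e1
    rcases mul_eq_zero.mp e1 with h | h
    · exact hc0 h
    · exact int_unit_ne_zero _ h
  have hε : α'.1.2.2 = -α.1.2.2 := by
    rcases Int.units_eq_one_or α.1.2.2 with h | h <;>
      rcases Int.units_eq_one_or α'.1.2.2 with h' | h'
    · exfalso
      apply hne
      ext1
      ext
      · exact congrArg Fin.val hij.1
      · exact congrArg Fin.val hij.2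
      · rw [h, h']
    · rw [h, h']
    · rw [h, h']; simp
    · exfalso
      apply hne
      ext1
      ext
      · exact congrArg Fin.val hij.1
      · exact congrArg Fin.val hij.2
      · rw [h, h']
  obtain ⟨l0, hl0, hl0'⟩ := hx.h0
  obtain ⟨l1, hl1, hl1', hl1''⟩ := hx.h1 α.1.1 α.1.2.1 α.2
  have e0 := congrArg l0 hsum
  have e1 := congrArg l1 hsum
  rw [map_add, map_smul, map_smul, map_smul, lin_aexp, lin_aexp, hl0, hl0' _ _ α.2,
    hl0' _ _ α'.2] at e0
  rw [map_add, map_smul, map_smul, map_smul, lin_aexp, lin_aexp, hl1, ← hij.1, ← hij.2, hl1',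
    hε] at e1
  simp only [mul_zero, add_zero, smul_eq_mul, mul_one, zero_add, Units.val_neg, Int.cast_neg]
    at e0 e1
  have e2 : (c - c') * (((α.1.2.2 : ℤˣ) : ℤ) : ℚ) = 0 := by linear_combination e1
  have e3 : c - c' = 0 := by
    rcases mul_eq_zero.mp e2 with h | h
    · exact h
    · exact absurd h (int_unit_ne_zero _)
  have e4 : c = 1 := by linarith
  rw [hc, e4, one_smul]

/-- Step 3: the partners respect the grouping by the second index. -/
theorem match_group [IsAlgClosed L] (x y : Fin n → L) (z z' : Idx n → Lˣ) (hx : Generic x)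
    (h4 : esum (Dprod (fac x z)) * ∏ k, Dprod (fac y z') k =
      esum (Dprod (fac y z')) * ∏ j, Dprod (fac x z) j)
    (f : Idx n → Idx n) (hf : Function.Bijective f)
    (hf' : ∀ α, aexp y (f α) = aexp x α ∧ z' (f α) = z α) (j : Fin n) :
    ∃ l : Fin n, ∀ i (h : i ≠ j), (f ⟨(i, j, 1), h⟩).1.2.1 = l := by
  have hfac : ∀ α, fac y z' (f α) = fac x z α := by
    intro α
    unfold fac
    rw [(hf' α).1, (hf' α).2]
  have hfac0 : ∀ α, fac x z α ≠ 0 := by
    intro α
    unfold fac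
    rw [sub_ne_zero, one_def, Ne, single_inj]
    rintro (⟨h, -⟩ | ⟨h, -⟩)
    · exact aexp_ne_zero hx α h.symm
    · exact one_ne_zero h
  have hprod : ∏ k, Dprod (fac y z') k = ∏ j, Dprod (fac x z) j := by
    rw [prod_Dprod, prod_Dprod, ← hf.prod_comp]
    simp_rw [hfac]
  have hprod0 : ∏ j, Dprod (fac x z) j ≠ 0 := by
    rw [prod_Dprod]
    exact Finset.prod_ne_zero_iff.mpr fun α _ => hfac0 α
  rw [hprod] at h4
  have h5 := mul_right_cancel₀ hprod0 h4
  -- the specialisation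
  have hv : LinearIndependent ℚ (fun i : {i : Fin n // i ≠ j} =>
      aexp x ⟨(i.1, j, 1), i.2⟩) := by
    rw [Fintype.linearIndependent_iff]
    intro g hg i
    obtain ⟨l1, hl1, hl1', hl1''⟩ := hx.h1 i.1 j i.2
    have e1 := congrArg l1 hg
    rw [map_sum, map_zero, Finset.sum_eq_single i] at e1
    · rw [map_smul, lin_aexp, hl1, hl1'] at e1
      simpa using e1
    · intro b _ hb
      rw [map_smul, lin_aexp, hl1, hl1'' _ _ b.2 (fun h => hb (Subtype.ext h.1))]
      simp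
    · simp
  obtain ⟨R, _, _, φ, hφ1, hφ2, hφ3⟩ := exists_special _ hv
    (fun i => (z ⟨(i.1, j, 1), i.2⟩)⁻¹)
  have hkill : ∀ i (h : i ≠ j), φ (fac x z ⟨(i, j, 1), h⟩) = 0 := by
    intro i h
    unfold fac
    rw [hφ1 ⟨i, h⟩]
    simp
  have hne : ∀ γ : Idx n, γ.1.2.1 ≠ j → φ (fac x z γ) ≠ 0 := by
    intro γ hγ
    apply hφ2
    obtain ⟨l1, hl1, hl1', hl1''⟩ := hx.h1 γ.1.1 γ.1.2.1 γ.2
    intro hmem
    have hle : Submodule.span ℚ (Set.range (fun i : {i : Fin n // i ≠ j} =>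
      aexp x ⟨(i.1, j, 1), i.2⟩)) ≤ LinearMap.ker l1 := by
      rw [Submodule.span_le]
      rintro _ ⟨i, rfl⟩
      rw [SetLike.mem_coe, LinearMap.mem_ker, lin_aexp, hl1,
        hl1'' _ _ i.2 (fun h => hγ h.2.symm)]
      simp
    have e1 := LinearMap.mem_ker.mp (hle hmem)
    rw [lin_aexp, hl1, hl1'] at e1
    simp only [mul_one, zero_add] at e1
    exact int_unit_ne_zero _ e1
  by_cases hn : ∃ i : Fin n, i ≠ j
  · obtain ⟨i0, hi0⟩ := hn
    have hD0 : Dprod (fun γ => φ (fac x z γ)) j = 0 := by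
      rw [Dprod_eq_zero_iff]
      exact ⟨_, rfl, hkill i0 hi0⟩
    have hDne : ∀ j', j' ≠ j → Dprod (fun γ => φ (fac x z γ)) j' ≠ 0 := by
      intro j' hj h
      rw [Dprod_eq_zero_iff] at h
      obtain ⟨γ, h1, h2⟩ := h
      exact hne γ (by rw [h1]; exact hj) h2
    have h6 := congrArg φ h5
    rw [map_esum, map_esum] at h6
    simp only [map_Dprod] at h6
    rw [esum_of_eq_zero _ _ hD0] at h6
    have h7 : esum (Dprod (fun γ => φ (fac y z' γ))) ≠ 0 := by
      rw [← h6]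
      exact Finset.prod_ne_zero_iff.mpr fun j' hj' => hDne j' (Finset.ne_of_mem_erase hj')
    unfold esum at h7
    obtain ⟨l, -, hl⟩ := Finset.exists_ne_zero_of_sum_ne_zero h7
    refine ⟨l, fun i h => ?_⟩
    by_contra hc
    apply hl
    refine Finset.prod_eq_zero (i := (f ⟨(i, j, 1), h⟩).1.2.1)
      (Finset.mem_erase.mpr ⟨hc, mem_univ _⟩) ?_
    rw [Dprod_eq_zero_iff]
    refine ⟨f ⟨(i, j, 1), h⟩, rfl, ?_⟩
    rw [hfac]
    exact hkill i h
  · push Not at hn
    exact ⟨j, fun i h => absurd (hn i) h⟩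

/-- The opposite index. -/
def Idx.opp (α : Idx n) : Idx n := ⟨(α.1.1, α.1.2.1, -α.1.2.2), α.2⟩

theorem aexp_opp (x : Fin n → L) (α : Idx n) : aexp x α.opp = 2 - aexp x α := by
  unfold aexp Idx.opp
  simp only [Units.val_neg, Int.cast_neg, neg_mul]
  ring

theorem aexp_injective {x : Fin n → L} (hx : Generic x) : Function.Injective (aexp x) := by
  intro α β h
  by_contra hne
  apply aexp_not_mem_span hx hne
  rw [h]
  exact Submodule.mem_span_singleton_self _

/-- Step 4: the final form. -/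
theorem gen_uniq [IsAlgClosed L] (x y : Fin n → L) (z z' : Idx n → Lˣ) (hx : Generic x)
    (hy : ∀ i, y i ≠ 0)
    (h3 : ∀ β : Idx n, aexp y β = 0 → (z' β : L) ≠ 1)
    (h4 : esum (Dprod (fac x z)) * ∏ k, Dprod (fac y z') k =
      esum (Dprod (fac y z')) * ∏ j, Dprod (fac x z) j) :
    ∃ σ : Equiv.Perm (Fin n), ∀ i j (h : i ≠ j), ∃ e : ℤˣ,
      y i / y j = ((e : ℤ) : L) * (x (σ i) / x (σ j)) ∧
      ∀ δ : ℤˣ, z' ⟨(i, j, δ), h⟩ = z ⟨(σ i, σ j, e * δ), fun h' => h (σ.injective h')⟩ := by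
  obtain ⟨f, hf, hf'⟩ := match_bij x y z z' hx h3 h4
  have hopp : ∀ α, f α.opp = (f α).opp := by
    intro α
    obtain ⟨γ, hγ⟩ := hf.surjective (f α).opp
    have h1 : aexp x γ = aexp x α.opp := by
      rw [← (hf' γ).1, hγ, aexp_opp, aexp_opp, (hf' α).1]
    rw [← hγ, aexp_injective hx h1]
  choose l hl using match_group x y z z' hx h4 f hf hf'
  -- the induced map on pairs
  let F : ∀ i j : Fin n, i ≠ j → Fin n := fun i j h => (f ⟨(i, j, 1), h⟩).1.1
  have hF : ∀ i j (h : i ≠ j), F i j h ≠ l j := by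
    intro i j h
    rw [← hl j i h]
    exact (f ⟨(i, j, 1), h⟩).2
  have hfF : ∀ i j (h : i ≠ j), ∃ δ : ℤˣ, f ⟨(i, j, 1), h⟩ = ⟨(F i j h, l j, δ), hF i j h⟩ := by
    intro i j h
    refine ⟨(f ⟨(i, j, 1), h⟩).1.2.2, ?_⟩
    ext1
    change (f ⟨(i, j, 1), h⟩).1 = ((f ⟨(i, j, 1), h⟩).1.1, l j, (f ⟨(i, j, 1), h⟩).1.2.2)
    rw [← hl j i h]
  have hpair : ∀ i j (h : i ≠ j) i' j' (h' : i' ≠ j'), F i j h = F i' j' h' → l j = l j' →
      i = i' ∧ j = j' := by
    intro i j h i' j' h' h1 h2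
    obtain ⟨δ, hδ⟩ := hfF i j h
    obtain ⟨δ', hδ'⟩ := hfF i' j' h'
    have key : f ⟨(i, j, 1), h⟩ = f ⟨(i', j', 1), h'⟩ ∨
        f ⟨(i, j, 1), h⟩ = f (Idx.opp ⟨(i', j', 1), h'⟩) := by
      rw [hopp, hδ, hδ']
      rcases Int.units_eq_one_or δ with h3 | h3 <;> rcases Int.units_eq_one_or δ' with h4 | h4
      · left; simp [h1, h2, h3, h4]
      · right; simp [Idx.opp, h1, h2, h3, h4]
      · right; simp [Idx.opp, h1, h2, h3, h4]
      · left; simp [h1, h2, h3, h4]
    rcases key with key | key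
    · have := hf.injective key
      simp only [Subtype.mk.injEq, Prod.mk.injEq] at this
      exact ⟨this.1, this.2.1⟩
    · have := hf.injective key
      simp only [Idx.opp, Subtype.mk.injEq, Prod.mk.injEq] at this
      exact ⟨this.1, this.2.1⟩
  have hsurj : ∀ j k, k ≠ l j → ∃ i, ∃ h : i ≠ j, F i j h = k := by
    intro j k hk
    let G : {i : Fin n // i ≠ j} → {k : Fin n // k ≠ l j} := fun i => ⟨F i.1 j i.2, hF i.1 j i.2⟩
    have hG : Function.Injective G := by
      intro a b hab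
      have := congrArg Subtype.val hab
      exact Subtype.ext (hpair _ _ a.2 _ _ b.2 this rfl).1
    have hcard : Fintype.card {i : Fin n // i ≠ j} = Fintype.card {k : Fin n // k ≠ l j} := by
      simp
    have hG' := (Fintype.bijective_iff_injective_and_card G).mpr ⟨hG, hcard⟩
    obtain ⟨i, hi⟩ := hG'.surjective ⟨k, hk⟩
    exact ⟨i.1, i.2, congrArg Subtype.val hi⟩
  have hlinj : Function.Injective l := by
    intro j j' hjj
    by_contra hne
    have hk : ∃ k, k ≠ l j := by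
      by_contra hk
      push Not at hk
      exact hne ((hk j).trans (hk j').symm)
    obtain ⟨k, hk⟩ := hk
    obtain ⟨i, h, hi⟩ := hsurj j k hk
    obtain ⟨i', h', hi'⟩ := hsurj j' k (hjj ▸ hk)
    exact hne (hpair i j h i' j' h' (hi.trans hi'.symm) hjj).2
  have hlbij : Function.Bijective l := Finite.injective_iff_bijective.mp hlinj
  let le : Equiv.Perm (Fin n) := Equiv.ofBijective l hlbij
  have hle : ∀ j, l (le.symm j) = j := fun j => le.apply_symm_apply j
  -- the main relation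
  have hrel : ∀ k m, k ≠ m → ∃ i, ∃ h : i ≠ le.symm m, ∃ δ : ℤˣ, ∃ hkm : k ≠ m,
      f ⟨(i, le.symm m, 1), h⟩ = ⟨(k, m, δ), hkm⟩ ∧
      y k / y m = ((δ : ℤ) : L) * (x i / x (le.symm m)) := by
    intro k m hkm
    obtain ⟨i, h, hi⟩ := hsurj (le.symm m) k (by rw [hle]; exact hkm)
    obtain ⟨δ, hδ⟩ := hfF i (le.symm m) h
    refine ⟨i, h, δ, hkm, ?_, ?_⟩
    · rw [hδ]
      simp [hi, hle]
    · have h1 := (hf' ⟨(i, le.symm m, 1), h⟩).1
      rw [hδ] at h1
      unfold aexp at h1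
      simp only [hi, hle, Units.val_one, Int.cast_one, one_mul] at h1
      have h2 := add_left_cancel h1
      rw [← h2, ← mul_assoc]
      rcases Int.units_eq_one_or δ with h3 | h3 <;> rw [h3] <;> simp
  refine ⟨le.symm, fun k m hkm => ?_⟩
  obtain ⟨i, h, δ, hkm', hfi, hyi⟩ := hrel k m hkm
  obtain ⟨i', h', δ', hkm'', hfi', hyi'⟩ := hrel m k hkm.symm
  have hprod : x i / x (le.symm m) * (x i' / x (le.symm k)) = (((δ * δ' : ℤˣ) : ℤ) : L) := by
    have h1 : (y k / y m) * (y m / y k) = 1 := by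
      field_simp [hy k, hy m]
    rw [hyi, hyi'] at h1
    rcases Int.units_eq_one_or δ with h3 | h3 <;> rcases Int.units_eq_one_or δ' with h4 | h4 <;>
      rw [h3, h4] at h1 ⊢ <;> simp at h1 ⊢ <;> first | linear_combination h1 | linear_combination -h1
  have hik := (hx.hm i (le.symm m) i' (le.symm k) h h' _ hprod).2
  subst hik
  refine ⟨δ, hyi, fun δ'' => ?_⟩
  rcases Int.units_eq_one_or (δ * δ'') with h3 | h3
  · have h4 : δ'' = δ := by
      rcases Int.units_eq_one_or δ with h5 | h5 <;> rcases Int.units_eq_one_or δ'' with h6 | h6 <;>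
        rw [h5, h6] at h3 ⊢ <;> simp at h3
    subst h4
    rw [← hfi, (hf' _).2]
    congr 1
    ext1
    simp [h3]
  · have h4 : δ'' = -δ := by
      rcases Int.units_eq_one_or δ with h5 | h5 <;> rcases Int.units_eq_one_or δ'' with h6 | h6 <;>
        rw [h5, h6] at h3 ⊢ <;> simp at h3 ⊢
    have h5 : (⟨(k, m, δ''), hkm⟩ : Idx n) = f (Idx.opp ⟨(le.symm k, le.symm m, 1), h⟩) := by
      rw [hopp, hfi, h4]
      rfl
    rw [h5, (hf' _).2]
    congr 1
    ext1
    simp [Idx.opp, h3]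

end Pool.Agent.Hhelper63.Lens
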