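import Mathlib
import Pool.Agent.Hhelper63.Lens.GenUniq

set_option autoImplicit false

namespace Pool.Agent.Hhelper63.Lens

open Finset MvPolynomial

variable {L : Type} [Field L] [CharZero L] {n : ℕ}

/-- The ratios together with `1`. -/
def ratio (x : Fin n → L) : Option {p : Fin n × Fin n // p.1 ≠ p.2} → L
  | none => 1
  | some p => x p.1.1 / x p.1.2

/-- exponent vectors -/
noncomputable def evec : Option {p : Fin n × Fin n // p.1 ≠ p.2} → (Fin n →₀ ℕ)
  | none => Finsupp.equivFunOnFinite.symm (fun _ => 1)
  | some p => Finsupp.equivFunOnFinite.symm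
      (fun l => if l = p.1.1 then 2 else if l = p.1.2 then 0 else 1)

theorem evec_injective : Function.Injective (evec (n := n)) := by
  intro a b hab
  cases a with
  | none =>
    cases b with
    | none => rfl
    | some q =>
      have h1 := DFunLike.congr_fun hab q.1.1
      simp [evec] at h1
  | some p =>
    cases b with
    | none =>
      have h1 := DFunLike.congr_fun hab p.1.1
      simp [evec] at h1
    | some q =>
      have h1 : p.1.1 = q.1.1 := by
        by_contra hne
        have h1 := DFunLike.congr_fun hab p.1.1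
        simp only [evec, Finsupp.equivFunOnFinite_symm_apply_apply, if_true, if_neg hne] at h1
        split_ifs at h1 <;> omega
      have h2 : p.1.2 = q.1.2 := by
        by_contra hne
        have h2 := DFunLike.congr_fun hab p.1.2
        simp only [evec, Finsupp.equivFunOnFinite_symm_apply_apply, if_true, if_neg hne,
          if_neg p.2.symm] at h2
        split_ifs at h2 <;> omega
      congr 1
      ext1
      exact Prod.ext h1 h2

theorem prod_evec (x : Fin n → L) (hx0 : ∀ i, x i ≠ 0)
    (o : Option {p : Fin n × Fin n // p.1 ≠ p.2}) :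
    aeval x (monomial (evec o) (1 : ℤ)) = (∏ i, x i) * ratio x o := by
  rw [aeval_monomial, map_one, one_mul, Finsupp.prod_fintype _ _ (fun i => pow_zero _)]
  cases o with
  | none => simp [evec, ratio]
  | some p =>
    unfold ratio
    simp only [evec, Finsupp.equivFunOnFinite_symm_apply_apply]
    have hp := p.2
    rw [← Finset.mul_prod_erase univ _ (mem_univ p.1.1),
      ← Finset.mul_prod_erase (univ.erase p.1.1) _
        (Finset.mem_erase.mpr ⟨hp.symm, mem_univ p.1.2⟩),
      ← Finset.mul_prod_erase univ x (mem_univ p.1.1),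
      ← Finset.mul_prod_erase (univ.erase p.1.1) x
        (Finset.mem_erase.mpr ⟨hp.symm, mem_univ p.1.2⟩)]
    rw [if_pos rfl, if_neg hp.symm, if_pos rfl, pow_zero, one_mul]
    have : ∀ i ∈ (univ.erase p.1.1).erase p.1.2,
        x i ^ (if i = p.1.1 then 2 else if i = p.1.2 then 0 else 1) = x i := by
      intro i hi
      rw [if_neg (Finset.ne_of_mem_erase (Finset.mem_of_mem_erase hi)),
        if_neg (Finset.ne_of_mem_erase hi), pow_one]
    rw [Finset.prod_congr rfl this]
    have := hx0 p.1.2
    field_simp

theorem linearIndependent_ratio (x : Fin n → L)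
    (hx : ∀ P : MvPolynomial (Fin n) ℤ, P ≠ 0 → aeval x P ≠ 0) :
    LinearIndependent ℚ (ratio x) := by
  have hx0 : ∀ i, x i ≠ 0 := by
    intro i
    have := hx (X i) (X_ne_zero i)
    rwa [aeval_X] at this
  have h1 : LinearIndependent ℤ (fun o => monomial (evec (n := n) o) (1 : ℤ)) := by
    have := (basisMonomials (Fin n) ℤ).linearIndependent.comp _ (evec_injective (n := n))
    rw [coe_basisMonomials] at this
    exact this
  have h2 : LinearIndependent ℤ (fun o => aeval x (monomial (evec (n := n) o) (1 : ℤ))) := by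
    have := h1.map' (aeval x : MvPolynomial (Fin n) ℤ →ₐ[ℤ] L).toLinearMap (by
      rw [LinearMap.ker_eq_bot']
      intro P hP
      by_contra hne
      exact hx P hne hP)
    exact this
  simp_rw [prod_evec x hx0] at h2
  have h3 := (LinearIndependent.iff_fractionRing ℤ ℚ).mp h2
  exact LinearIndependent.of_comp (LinearMap.mulLeft ℚ (∏ i, x i)) h3

theorem exists_functional {κ : Type} (f : κ → L) (hf : LinearIndependent ℚ f) (o : κ) :
    ∃ l : L →ₗ[ℚ] ℚ, l (f o) = 1 ∧ ∀ o', o' ≠ o → l (f o') = 0 := by
  classical
  obtain ⟨l, hl⟩ := LinearMap.exists_extend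
    ((Finsupp.lapply o : (κ →₀ ℚ) →ₗ[ℚ] ℚ).comp hf.repr)
  have h1 : ∀ o', l (f o') = (Finsupp.single o' (1 : ℚ)) o := by
    intro o'
    have := DFunLike.congr_fun hl
      (⟨f o', Submodule.subset_span ⟨o', rfl⟩⟩ : Submodule.span ℚ (Set.range f))
    simp only [LinearMap.comp_apply, Submodule.subtype_apply, Finsupp.lapply_apply] at this
    rw [this]
    congr 1
    exact hf.repr_eq_single o' _ rfl
  refine ⟨l, ?_, fun o' ho' => ?_⟩
  · rw [h1, Finsupp.single_eq_same]
  · rw [h1, Finsupp.single_eq_of_ne ho'.symm]

theorem generic_of_algebraic (x : Fin n → L)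
    (hx : ∀ P : MvPolynomial (Fin n) ℤ, P ≠ 0 → aeval x P ≠ 0) : Generic x := by
  have hli := linearIndependent_ratio x hx
  have hx0 : ∀ i, x i ≠ 0 := by
    intro i
    have := hx (X i) (X_ne_zero i)
    rwa [aeval_X] at this
  refine ⟨?_, ?_, ?_⟩
  · obtain ⟨l, hl1, hl2⟩ := exists_functional _ hli none
    exact ⟨l, hl1, fun i j hij => hl2 (some ⟨(i, j), hij⟩) (by simp)⟩
  · intro i j hij
    obtain ⟨l, hl1, hl2⟩ := exists_functional _ hli (some ⟨(i, j), hij⟩)
    refine ⟨l, hl2 none (by simp), hl1, fun i' j' hij' hne => hl2 (some ⟨(i', j'), hij'⟩) ?_⟩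
    intro h
    simp only [Option.some.injEq, Subtype.mk.injEq, Prod.mk.injEq] at h
    exact hne h
  · intro i j k l hij hkl e heq
    set d1 : Fin n →₀ ℕ := Finsupp.single i 1 + Finsupp.single k 1 with hd1
    set d2 : Fin n →₀ ℕ := Finsupp.single j 1 + Finsupp.single l 1 with hd2
    have hP : aeval x (monomial d1 (1 : ℤ) - monomial d2 (e : ℤ)) = 0 := by
      have e1 : monomial d1 (1 : ℤ) = X i * X k := by
        rw [X, X, monomial_mul, one_mul]
      have e2 : monomial d2 (e : ℤ) = C (e : ℤ) * (X j * X l) := by
        rw [X, X, monomial_mul, C_mul_monomial, one_mul, mul_one]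
      rw [e1, e2, map_sub, map_mul, map_mul, map_mul, aeval_X, aeval_X, aeval_X, aeval_X,
        aeval_C]
      have hj := hx0 j
      have hl := hx0 l
      field_simp at heq
      simp only [algebraMap_int_eq, eq_intCast]
      rw [heq]
      ring
    by_cases hd : d1 = d2
    · have h1 := DFunLike.congr_fun hd i
      have h2 := DFunLike.congr_fun hd j
      rw [hd1, hd2] at h1 h2
      simp only [Finsupp.add_apply, Finsupp.single_apply, if_true] at h1 h2
      rw [if_neg hij.symm] at h1
      rw [if_neg hij] at h2
      constructor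
      · by_contra hkj
        rw [if_neg hkj] at h2
        omega
      · by_contra hli
        rw [if_neg hli] at h1
        omega
    · exfalso
      refine hx _ ?_ hP
      intro h0
      have h1 := congrArg (coeff d1) h0
      rw [coeff_sub, coeff_monomial, coeff_monomial, if_pos rfl, if_neg (Ne.symm hd),
        coeff_zero] at h1
      norm_num at h1

end Pool.Agent.Hhelper63.Lens
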