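import Mathlib
import Pool.Agent.Hhelper63.Lens.Basic

set_option autoImplicit false

namespace Pool.Agent.Hhelper63.Lens

open Finset PowerSeries

variable {n : ℕ}

/-- The number of vectors of 1-norm `k` in the congruence lattice of `u`. -/
noncomputable def latN (q : ℕ) (u : Fin n → ZMod q) (k : ℕ) : ℕ :=
  ((Fintype.piFinset (fun _ : Fin n => Finset.Icc (-(k : ℤ)) (k : ℤ))).filter
    (fun a => ∑ j, |a j| = (k : ℤ) ∧ ∑ j, (a j : ZMod q) * u j = 0)).card

/-- The series `∑ a : ℤ, c ^ a X ^ |a|`. -/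
noncomputable def gser (c : ℂ) : PowerSeries ℂ :=
  PowerSeries.mk fun t => if t = 0 then 1 else c ^ t + c⁻¹ ^ t

/-- its truncation -/
noncomputable def gtr (k : ℕ) (c : ℂ) : PowerSeries ℂ :=
  ∑ a ∈ Finset.Icc (-(k : ℤ)) (k : ℤ), C (c ^ a) * X ^ a.natAbs

theorem coeff_gtr (k : ℕ) (c : ℂ) (t : ℕ) (ht : t < k + 1) :
    coeff t (gtr k c) = coeff t (gser c) := by
  unfold gtr gser
  rw [map_sum, coeff_mk]
  simp_rw [coeff_C_mul, coeff_X_pow]
  simp_rw [mul_ite, mul_one, mul_zero]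
  rw [← Finset.sum_filter]
  split_ifs with h
  · subst h
    have : (Finset.Icc (-(k : ℤ)) (k : ℤ)).filter (fun a => 0 = a.natAbs) = {0} := by
      ext a
      simp only [mem_filter, mem_Icc, mem_singleton]
      omega
    rw [this, Finset.sum_singleton, zpow_zero]
  · have : (Finset.Icc (-(k : ℤ)) (k : ℤ)).filter (fun a => t = a.natAbs) =
        {(t : ℤ), -(t : ℤ)} := by
      ext a
      simp only [mem_filter, mem_Icc, mem_singleton, mem_insert]
      omega
    rw [this, Finset.sum_pair (by omega), zpow_natCast, zpow_neg, zpow_natCast, inv_pow]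

theorem gser_mul (c : ℂ) (hc : c ≠ 0) :
    gser c * ((1 - C c * X) * (1 - C c⁻¹ * X)) = 1 - X ^ 2 := by
  have h1 : ∀ d : ℂ, (PowerSeries.mk fun t => d ^ t) * (1 - C d * X) = 1 := by
    intro d
    ext t
    rw [mul_sub, mul_one, ← mul_assoc, map_sub, mul_comm _ (C d), mul_assoc, coeff_C_mul,
      coeff_mk]
    cases t with
    | zero => simp
    | succ t =>
      rw [coeff_succ_mul_X, coeff_mk, coeff_one, if_neg (Nat.succ_ne_zero t)]
      ring
  have h2 : gser c = (PowerSeries.mk fun t => c ^ t) + (PowerSeries.mk fun t => c⁻¹ ^ t) - 1 := by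
    ext t
    unfold gser
    rw [map_sub, map_add, coeff_mk, coeff_mk, coeff_mk, coeff_one]
    split_ifs with h
    · subst h
      norm_num
    · ring
  have h3 : C c * C c⁻¹ = (1 : PowerSeries ℂ) := by
    rw [← map_mul, mul_inv_cancel₀ hc, map_one]
  rw [h2]
  have e1 := h1 c
  have e2 := h1 c⁻¹
  linear_combination (1 - C c⁻¹ * X) * e1 + (1 - C c * X) * e2 - X ^ 2 * h3

theorem coeff_prod_gser (c : Fin n → ℂ) (k : ℕ) :
    coeff k (∏ j, gser (c j)) =
      ∑ a ∈ (Fintype.piFinset (fun _ : Fin n => Finset.Icc (-(k : ℤ)) (k : ℤ))).filter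
        (fun a => ∑ j, |a j| = (k : ℤ)), ∏ j, c j ^ a j := by
  have h1 : coeff k (∏ j, gser (c j)) = coeff k (∏ j, gtr k (c j)) := by
    have hd : (X : PowerSeries ℂ) ^ (k + 1) ∣ (∏ j, gser (c j)) - ∏ j, gtr k (c j) := by
      rw [← Ideal.mem_span_singleton, ← Ideal.Quotient.eq, map_prod, map_prod]
      refine Finset.prod_congr rfl fun j _ => ?_
      rw [Ideal.Quotient.eq, Ideal.mem_span_singleton, X_pow_dvd_iff]
      intro t ht
      rw [map_sub, coeff_gtr k _ t ht, sub_self]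
    rw [X_pow_dvd_iff] at hd
    have := hd k (Nat.lt_succ_self k)
    rw [map_sub, sub_eq_zero] at this
    exact this
  rw [h1]
  unfold gtr
  rw [Finset.prod_univ_sum, map_sum, Finset.sum_filter]
  refine Finset.sum_congr rfl fun a _ => ?_
  rw [Finset.prod_mul_distrib, Finset.prod_pow_eq_pow_sum, ← map_prod, coeff_C_mul, coeff_X_pow]
  have h2 : (∑ j, |a j| = (k : ℤ)) ↔ k = ∑ j, (a j).natAbs := by
    simp_rw [Int.abs_eq_natAbs]
    rw [← Nat.cast_sum, Nat.cast_inj, eq_comm]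
  simp only [h2]
  split_ifs <;> simp

theorem addChar_sum {A : Type*} [AddCommMonoid A] {M : Type*} [CommMonoid M] (ψ : AddChar A M)
    {κ : Type*} (s : Finset κ) (f : κ → A) : ψ (∑ j ∈ s, f j) = ∏ j ∈ s, ψ (f j) := by
  classical
  induction s using Finset.induction_on with
  | empty => simp
  | insert a s ha ih => rw [Finset.sum_insert ha, Finset.prod_insert ha, AddChar.map_add_eq_mul, ih]

/-- Counting lattice vectors through characters. -/
theorem card_mul_latN (q : ℕ) [NeZero q] (ψ : AddChar (ZMod q) ℂ) (hψ : ψ.IsPrimitive)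
    (u : Fin n → ZMod q) (k : ℕ) :
    (q : ℂ) * latN q u k = ∑ l : ZMod q, coeff k (∏ j, gser (ψ (l * u j))) := by
  simp_rw [coeff_prod_gser]
  rw [Finset.sum_comm]
  have h1 : ∀ a : Fin n → ℤ, ∑ l : ZMod q, ∏ j, ψ (l * u j) ^ a j =
      if ∑ j, (a j : ZMod q) * u j = 0 then (q : ℂ) else 0 := by
    intro a
    have h2 : ∀ l : ZMod q, ∏ j, ψ (l * u j) ^ a j = ψ (l * ∑ j, (a j : ZMod q) * u j) := by
      intro l
      simp_rw [← AddChar.map_zsmul_eq_zpow]
      rw [Finset.mul_sum, addChar_sum]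
      refine Finset.prod_congr rfl fun j _ => ?_
      congr 1
      rw [zsmul_eq_mul]
      ring
    simp_rw [h2]
    rw [AddChar.sum_mulShift _ hψ, ZMod.card]
    push_cast
    rfl
  simp_rw [h1]
  unfold latN
  rw [← Finset.filter_filter, Finset.card_filter]
  push_cast
  rw [Finset.mul_sum]
  refine Finset.sum_congr rfl fun a _ => ?_
  split_ifs <;> simp

theorem sum_prod_gser_eq (q : ℕ) [NeZero q] (ψ : AddChar (ZMod q) ℂ) (hψ : ψ.IsPrimitive)
    (u v : Fin n → ZMod q) (h : ∀ k, latN q u k = latN q v k) :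
    ∑ l : ZMod q, ∏ j, gser (ψ (l * u j)) = ∑ l : ZMod q, ∏ j, gser (ψ (l * v j)) := by
  ext k
  rw [map_sum, map_sum, ← card_mul_latN q ψ hψ, ← card_mul_latN q ψ hψ, h]

/-- The denominators `T_l(z)`. -/
noncomputable def Tz {q : ℕ} (ψ : AddChar (ZMod q) ℂ) (u : Fin n → ZMod q) (z : ℂ)
    (l : ZMod q) : ℂ :=
  ∏ j, ((1 - ψ (l * u j) * z) * (1 - ψ (-(l * u j)) * z))

theorem psi_ne_zero {q : ℕ} (ψ : AddChar (ZMod q) ℂ) (a : ZMod q) : ψ a ≠ 0 := by
  intro h
  have h1 : ψ a * ψ (-a) = 1 := by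
    rw [← AddChar.map_add_eq_mul, add_neg_cancel, AddChar.map_zero_eq_one]
  rw [h, zero_mul] at h1
  exact zero_ne_one h1

theorem sum_inv_Tz (q : ℕ) [NeZero q] (ψ : AddChar (ZMod q) ℂ) (hψ : ψ.IsPrimitive)
    (u v : Fin n → ZMod q) (h : ∀ k, latN q u k = latN q v k) (z : ℂ)
    (hz2 : z ^ 2 ≠ 1) (hz : ∀ a : ZMod q, ψ a * z ≠ 1) :
    ∑ l : ZMod q, (Tz ψ u z l)⁻¹ = ∑ l : ZMod q, (Tz ψ v z l)⁻¹ := by
  have hT : ∀ w : Fin n → ZMod q, ∀ l, Tz ψ w z l ≠ 0 := by
    intro w l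
    unfold Tz
    refine Finset.prod_ne_zero_iff.mpr fun j _ => mul_ne_zero ?_ ?_
    · exact sub_ne_zero.mpr (hz _).symm
    · exact sub_ne_zero.mpr (hz _).symm
  apply sum_inv_of_esum_mul_prod _ _ (hT u) (hT v)
  -- polynomial version
  let Q : (Fin n → ZMod q) → ZMod q → Polynomial ℂ := fun w l =>
    ∏ j, ((1 - Polynomial.C (ψ (l * w j)) * Polynomial.X) *
      (1 - Polynomial.C (ψ (-(l * w j))) * Polynomial.X))
  have hQeval : ∀ w l, (Q w l).eval z = Tz ψ w z l := by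
    intro w l
    simp only [Q, Tz, Polynomial.eval_prod, Polynomial.eval_mul, Polynomial.eval_sub,
      Polynomial.eval_one, Polynomial.eval_C, Polynomial.eval_X]
  have hPQ : ∀ w l, (∏ j, gser (ψ (l * w j))) * ((Q w l : Polynomial ℂ) : PowerSeries ℂ) =
      (1 - X ^ 2) ^ n := by
    intro w l
    have : ((Q w l : Polynomial ℂ) : PowerSeries ℂ) =
        ∏ j, ((1 - C (ψ (l * w j)) * X) * (1 - C (ψ (l * w j))⁻¹ * X)) := by
      simp only [Q]
      rw [← Polynomial.coeToPowerSeries.ringHom_apply, map_prod]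
      refine Finset.prod_congr rfl fun j _ => ?_
      rw [Polynomial.coeToPowerSeries.ringHom_apply, AddChar.map_neg_eq_inv]
      simp
    rw [this, ← Finset.prod_mul_distrib, Finset.prod_congr rfl
      fun j _ => gser_mul _ (psi_ne_zero ψ _)]
    simp
  have hsum := sum_prod_gser_eq q ψ hψ u v h
  have key : ((((1 - Polynomial.X ^ 2) ^ n * (esum (Q u) * ∏ l, Q v l) : Polynomial ℂ)) :
      PowerSeries ℂ) = (((1 - Polynomial.X ^ 2) ^ n * (esum (Q v) * ∏ l, Q u l) :
        Polynomial ℂ) : PowerSeries ℂ) := by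
    simp only [← Polynomial.coeToPowerSeries.ringHom_apply]
    simp only [map_mul, map_pow, map_sub, map_one, map_prod, map_esum]
    simp only [Polynomial.coeToPowerSeries.ringHom_apply, Polynomial.coe_X]
    have e1 := mul_esum (fun l => ((Q u l : Polynomial ℂ) : PowerSeries ℂ)) _ _ (hPQ u)
    have e2 := mul_esum (fun l => ((Q v l : Polynomial ℂ) : PowerSeries ℂ)) _ _ (hPQ v)
    rw [← mul_assoc, ← mul_assoc, e1, e2, hsum]
    ring
  rw [Polynomial.coe_inj] at key
  have h3 := congrArg (Polynomial.evalRingHom z) key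
  simp only [map_mul, map_pow, map_sub, map_one, map_prod, map_esum] at h3
  simp only [Polynomial.coe_evalRingHom, Polynomial.eval_X, hQeval] at h3
  have h4 : (1 - z ^ 2) ^ n ≠ 0 := pow_ne_zero _ (sub_ne_zero.mpr hz2.symm)
  exact mul_left_cancel₀ h4 h3

end Pool.Agent.Hhelper63.Lens
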