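import Mathlib
import Pool.Agent.Hhelper63.Lens.Lattice

set_option autoImplicit false

namespace Pool.Agent.Hhelper63.Lens

open Finset Filter Topology

variable {n : ℕ}

/-- the denominators of the residues -/
noncomputable def DC {q : ℕ} (ψ : AddChar (ZMod q) ℂ) (u : Fin n → (ZMod q)ˣ) (j : Fin n) : ℂ :=
  ∏ i ∈ univ.erase j, ((1 - ψ (1 + (u i : ZMod q) * ((u j)⁻¹ : (ZMod q)ˣ))) *
    (1 - ψ (1 - (u i : ZMod q) * ((u j)⁻¹ : (ZMod q)ˣ))))

/-- nondegenerate: no coincidences up to sign -/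
def Nondeg {q : ℕ} (u : Fin n → (ZMod q)ˣ) : Prop :=
  ∀ i j, i ≠ j → (u i : ZMod q) ≠ u j ∧ (u i : ZMod q) ≠ -(u j : ZMod q)

theorem psi_eq_one_iff {q : ℕ} [NeZero q] {ψ : AddChar (ZMod q) ℂ} (hψ : ψ.IsPrimitive)
    (a : ZMod q) : ψ a = 1 ↔ a = 0 := by
  rw [AddChar.IsPrimitive.zmod_char_eq_one_iff q hψ]

theorem DC_ne_zero {q : ℕ} [NeZero q] {ψ : AddChar (ZMod q) ℂ} (hψ : ψ.IsPrimitive)
    (u : Fin n → (ZMod q)ˣ) (hu : Nondeg u) (j : Fin n) : DC ψ u j ≠ 0 := by
  unfold DC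
  refine Finset.prod_ne_zero_iff.mpr fun i hi => ?_
  have hij := Finset.ne_of_mem_erase hi
  obtain ⟨h1, h2⟩ := hu i j hij
  refine mul_ne_zero ?_ ?_
  · rw [sub_ne_zero, ne_comm, Ne, psi_eq_one_iff hψ]
    intro h
    apply h2
    have h3 : ((u i : ZMod q)) * ((u j)⁻¹ : (ZMod q)ˣ) = -1 := by linear_combination h
    calc (u i : ZMod q) = (u i * ((u j)⁻¹ : (ZMod q)ˣ)) * u j := by
          rw [mul_assoc, Units.inv_mul, mul_one]
      _ = _ := by rw [h3]; ring
  · rw [sub_ne_zero, ne_comm, Ne, psi_eq_one_iff hψ]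
    intro h
    apply h1
    have h3 : ((u i : ZMod q)) * ((u j)⁻¹ : (ZMod q)ˣ) = 1 := by linear_combination -h
    calc (u i : ZMod q) = (u i * ((u j)⁻¹ : (ZMod q)ˣ)) * u j := by
          rw [mul_assoc, Units.inv_mul, mul_one]
      _ = _ := by rw [h3]; ring

theorem continuous_Tz {q : ℕ} (ψ : AddChar (ZMod q) ℂ) (w : Fin n → ZMod q) (l : ZMod q) :
    Continuous (fun z => Tz ψ w z l) := by
  unfold Tz
  fun_prop

theorem tendsto_term {q : ℕ} [NeZero q] (hq : 3 ≤ q) {ψ : AddChar (ZMod q) ℂ}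
    (hψ : ψ.IsPrimitive) (u : Fin n → (ZMod q)ˣ) (hu : Nondeg u) (l : ZMod q) :
    Tendsto (fun z : ℂ => (1 - ψ (-1) * z) * (Tz ψ (fun j => (u j : ZMod q)) z l)⁻¹)
      (𝓝[≠] (ψ 1))
      (𝓝 (∑ j, ((if l * u j = 1 then ((1 - ψ 2) * DC ψ u j)⁻¹ else 0) +
        (if l * u j = -1 then ((1 - ψ 2) * DC ψ u j)⁻¹ else 0)))) := by
  have hone : (1 : ZMod q) ≠ -1 := by
    intro h
    have h2 : (2 : ZMod q) = 0 := by linear_combination h
    have h3 : ((2 : ℕ) : ZMod q) = 0 := by exact_mod_cast h2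
    rw [ZMod.natCast_eq_zero_iff] at h3
    have := Nat.le_of_dvd (by norm_num) h3
    omega
  have h2ne : (2 : ZMod q) ≠ 0 := by
    intro h
    apply hone
    linear_combination h
  have hψ2 : (1 - ψ 2) ≠ 0 := by
    rw [sub_ne_zero, ne_comm, Ne, psi_eq_one_iff hψ]
    exact h2ne
  by_cases hl : ∃ j0, l * u j0 = 1 ∨ l * u j0 = -1
  · obtain ⟨j0, hj0⟩ := hl
    -- value of l
    obtain ⟨e, he, hle⟩ : ∃ e : ZMod q, (e = 1 ∨ e = -1) ∧ l * u j0 = e := by
      rcases hj0 with h | h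
      · exact ⟨1, Or.inl rfl, h⟩
      · exact ⟨-1, Or.inr rfl, h⟩
    have hl' : l = e * ((u j0)⁻¹ : (ZMod q)ˣ) := by
      rw [← hle, mul_assoc, Units.mul_inv, mul_one]
    have hother : ∀ j, j ≠ j0 → l * u j ≠ 1 ∧ l * u j ≠ -1 := by
      intro j hj
      obtain ⟨h1, h2⟩ := hu j j0 hj
      have h3 : ∀ e' : ZMod q, l * u j = e' → (u j : ZMod q) * e = e' * u j0 := by
        intro e' he'
        rw [← he', ← hle]
        ring
      constructor
      · intro h
        have := h3 1 h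
        rcases he with he | he <;> rw [he] at this
        · exact h1 (by linear_combination this)
        · exact h2 (by linear_combination -this)
      · intro h
        have := h3 (-1) h
        rcases he with he | he <;> rw [he] at this
        · exact h2 (by linear_combination this)
        · exact h1 (by linear_combination -this)
    have hsum : ∑ j, ((if l * u j = 1 then ((1 - ψ 2) * DC ψ u j)⁻¹ else 0) +
        (if l * u j = -1 then ((1 - ψ 2) * DC ψ u j)⁻¹ else 0)) =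
        ((1 - ψ 2) * DC ψ u j0)⁻¹ := by
      rw [Finset.sum_eq_single j0]
      · rcases hj0 with h | h
        · rw [if_pos h, if_neg (by rw [h]; exact hone), add_zero]
        · rw [if_neg (by rw [h]; exact hone.symm), if_pos h, zero_add]
      · intro b _ hb
        rw [if_neg (hother b hb).1, if_neg (hother b hb).2, add_zero]
      · simp
    rw [hsum]
    have hcont : Continuous (fun z : ℂ => (1 - ψ 1 * z) * ∏ j ∈ univ.erase j0,
        ((1 - ψ (l * u j) * z) * (1 - ψ (-(l * u j)) * z))) := by fun_prop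
    have hval : (1 - ψ 1 * ψ 1) * ∏ j ∈ univ.erase j0,
        ((1 - ψ (l * u j) * ψ 1) * (1 - ψ (-(l * u j)) * ψ 1)) = (1 - ψ 2) * DC ψ u j0 := by
      rw [← AddChar.map_add_eq_mul, one_add_one_eq_two]
      congr 1
      unfold DC
      refine Finset.prod_congr rfl fun j _ => ?_
      rw [← AddChar.map_add_eq_mul, ← AddChar.map_add_eq_mul, hl']
      rcases he with he | he <;> rw [he]
      · congr 3 <;> ring
      · rw [mul_comm (1 - ψ (1 + _))]
        congr 3 <;> ring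
    have hlim : Tendsto (fun z : ℂ => ((1 - ψ 1 * z) * ∏ j ∈ univ.erase j0,
        ((1 - ψ (l * u j) * z) * (1 - ψ (-(l * u j)) * z)))⁻¹) (𝓝[≠] (ψ 1))
        (𝓝 ((1 - ψ 2) * DC ψ u j0)⁻¹) := by
      rw [← hval]
      refine Tendsto.inv₀ (hcont.tendsto (ψ 1) |>.mono_left nhdsWithin_le_nhds) ?_
      rw [hval]
      exact mul_ne_zero hψ2 (DC_ne_zero hψ u hu j0)
    refine hlim.congr' ?_
    filter_upwards [self_mem_nhdsWithin] with z hz
    have hz1 : 1 - ψ (-1) * z ≠ 0 := by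
      rw [sub_ne_zero]
      intro h
      apply hz
      have h1 : ψ 1 * ψ (-1) = 1 := by
        rw [← AddChar.map_add_eq_mul, add_neg_cancel, AddChar.map_zero_eq_one]
      rw [Set.mem_singleton_iff]
      calc z = (ψ 1 * ψ (-1)) * z := by rw [h1, one_mul]
        _ = ψ 1 * (ψ (-1) * z) := by ring
        _ = ψ 1 := by rw [← h, mul_one]
    have hT : Tz ψ (fun j => (u j : ZMod q)) z l = (1 - ψ (-1) * z) * ((1 - ψ 1 * z) *
        ∏ j ∈ univ.erase j0, ((1 - ψ (l * u j) * z) * (1 - ψ (-(l * u j)) * z))) := by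
      unfold Tz
      rw [← Finset.mul_prod_erase univ _ (mem_univ j0), hle, ← mul_assoc]
      congr 1
      rcases he with he | he <;> rw [he]
      · ring
      · rw [neg_neg]
    rw [hT, mul_inv (1 - ψ (-1) * z), mul_inv_cancel_left₀ hz1]
  · push Not at hl
    have hsum : ∑ j, ((if l * u j = 1 then ((1 - ψ 2) * DC ψ u j)⁻¹ else 0) +
        (if l * u j = -1 then ((1 - ψ 2) * DC ψ u j)⁻¹ else 0)) = 0 := by
      refine Finset.sum_eq_zero fun j _ => ?_
      rw [if_neg (hl j).1, if_neg (hl j).2, add_zero]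
    rw [hsum]
    have hT0 : Tz ψ (fun j => (u j : ZMod q)) (ψ 1) l ≠ 0 := by
      unfold Tz
      refine Finset.prod_ne_zero_iff.mpr fun j _ => mul_ne_zero ?_ ?_
      · rw [← AddChar.map_add_eq_mul, sub_ne_zero, ne_comm, Ne, psi_eq_one_iff hψ]
        intro h
        exact (hl j).2 (by linear_combination h)
      · rw [← AddChar.map_add_eq_mul, sub_ne_zero, ne_comm, Ne, psi_eq_one_iff hψ]
        intro h
        exact (hl j).1 (by linear_combination -h)
    have h0 : (0 : ℂ) = (1 - ψ (-1) * ψ 1) * (Tz ψ (fun j => (u j : ZMod q)) (ψ 1) l)⁻¹ := by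
      rw [← AddChar.map_add_eq_mul, neg_add_cancel, AddChar.map_zero_eq_one]
      simp
    rw [h0]
    refine Tendsto.mono_left ?_ nhdsWithin_le_nhds
    refine Tendsto.mul ?_ (Tendsto.inv₀ ((continuous_Tz ψ _ l).tendsto (ψ 1)) hT0)
    have : Continuous (fun z : ℂ => 1 - ψ (-1) * z) := by fun_prop
    exact this.tendsto (ψ 1)

theorem residue_identity (q : ℕ) [NeZero q] (hq : 3 ≤ q) (ψ : AddChar (ZMod q) ℂ)
    (hψ : ψ.IsPrimitive) (u v : Fin n → (ZMod q)ˣ) (hu : Nondeg u) (hv : Nondeg v)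
    (h : ∀ k, latN q (fun j => (u j : ZMod q)) k = latN q (fun j => (v j : ZMod q)) k) :
    ∑ j, (DC ψ u j)⁻¹ = ∑ j, (DC ψ v j)⁻¹ := by
  have h2ne : (2 : ZMod q) ≠ 0 := by
    intro h2
    have h3 : ((2 : ℕ) : ZMod q) = 0 := by exact_mod_cast h2
    rw [ZMod.natCast_eq_zero_iff] at h3
    have := Nat.le_of_dvd (by norm_num) h3
    omega
  have hψ2 : (1 - ψ 2) ≠ 0 := by
    rw [sub_ne_zero, ne_comm, Ne, psi_eq_one_iff hψ]
    exact h2ne
  have hlim : ∀ w : Fin n → (ZMod q)ˣ, Nondeg w →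
      Tendsto (fun z : ℂ => (1 - ψ (-1) * z) *
        ∑ l : ZMod q, (Tz ψ (fun j => (w j : ZMod q)) z l)⁻¹) (𝓝[≠] (ψ 1))
        (𝓝 (2 * (1 - ψ 2)⁻¹ * ∑ j, (DC ψ w j)⁻¹)) := by
    intro w hw
    have h1 := tendsto_finsetSum (univ : Finset (ZMod q)) fun l _ => tendsto_term hq hψ w hw l
    have h2 : ∑ l : ZMod q, ∑ j, ((if l * w j = 1 then ((1 - ψ 2) * DC ψ w j)⁻¹ else 0) +
        (if l * w j = -1 then ((1 - ψ 2) * DC ψ w j)⁻¹ else 0)) =
        2 * (1 - ψ 2)⁻¹ * ∑ j, (DC ψ w j)⁻¹ := by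
      rw [Finset.sum_comm, Finset.mul_sum]
      refine Finset.sum_congr rfl fun j _ => ?_
      have e1 : ∀ (l : ZMod q), l * w j = 1 ↔ l = ((w j)⁻¹ : (ZMod q)ˣ) := by
        intro l
        constructor
        · intro h
          rw [← one_mul (((w j)⁻¹ : (ZMod q)ˣ) : ZMod q), ← h, mul_assoc, Units.mul_inv, mul_one]
        · rintro rfl
          exact Units.inv_mul _
      have e2 : ∀ (l : ZMod q), l * w j = -1 ↔ l = -((w j)⁻¹ : (ZMod q)ˣ) := by
        intro l
        constructor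
        · intro h
          have h' : l * w j * ((w j)⁻¹ : (ZMod q)ˣ) = -1 * ((w j)⁻¹ : (ZMod q)ˣ) := by rw [h]
          rw [mul_assoc, Units.mul_inv, mul_one] at h'
          rw [h', neg_one_mul]
        · rintro rfl
          rw [neg_mul, Units.inv_mul]
      simp_rw [e1, e2]
      rw [Finset.sum_add_distrib, Finset.sum_ite_eq', Finset.sum_ite_eq']
      simp only [mem_univ, if_true, mul_inv]
      ring
    rw [← h2]
    refine h1.congr fun z => ?_
    rw [Finset.mul_sum]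
  have hu' := hlim u hu
  have hv' := hlim v hv
  have heq : (fun z : ℂ => (1 - ψ (-1) * z) *
        ∑ l : ZMod q, (Tz ψ (fun j => (u j : ZMod q)) z l)⁻¹) =ᶠ[𝓝[≠] (ψ 1)]
      (fun z : ℂ => (1 - ψ (-1) * z) *
        ∑ l : ZMod q, (Tz ψ (fun j => (v j : ZMod q)) z l)⁻¹) := by
    have hfin : Set.Finite ({z : ℂ | z ^ 2 = 1} ∪ ⋃ a : ZMod q, {z : ℂ | ψ a * z = 1}) := by
      apply Set.Finite.union
      · refine Set.Finite.subset (Set.toFinite {1, -1}) ?_
        intro z hz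
        have hz' : z ^ 2 = 1 := hz
        have hz'' : (z - 1) * (z + 1) = 0 := by linear_combination hz'
        rcases mul_eq_zero.mp hz'' with h | h
        · left
          exact sub_eq_zero.mp h
        · right
          exact eq_neg_of_add_eq_zero_left h
      · refine Set.finite_iUnion fun a => ?_
        refine Set.Finite.subset (Set.finite_singleton ((ψ a)⁻¹)) ?_
        intro z hz
        have hz' : ψ a * z = 1 := hz
        rw [Set.mem_singleton_iff]
        exact eq_inv_of_mul_eq_one_right hz'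
    have := nhdsNE_le_cofinite (ψ 1) (Set.Finite.compl_mem_cofinite hfin)
    filter_upwards [this] with z hz
    rw [Set.mem_compl_iff, Set.mem_union, not_or, Set.mem_iUnion, not_exists] at hz
    rw [sum_inv_Tz q ψ hψ _ _ h z hz.1 hz.2]
  have h3 := tendsto_nhds_unique hu' (hv'.congr' heq.symm)
  have h4 : (2 : ℂ) * (1 - ψ 2)⁻¹ ≠ 0 := mul_ne_zero two_ne_zero (inv_ne_zero hψ2)
  exact mul_left_cancel₀ h4 h3

end Pool.Agent.Hhelper63.Lens
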