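import Mathlib
import Pool.Agent.Hhelper63.Lens.Residue

set_option autoImplicit false

namespace Pool.Agent.Hhelper63.Lens

open Finset

variable {n : ℕ}

theorem latN_two_eq_zero {q : ℕ} (hq : 3 ≤ q) (u : Fin n → (ZMod q)ˣ) (hu : Nondeg u) :
    latN q (fun j => (u j : ZMod q)) 2 = 0 := by
  have hfact : Nontrivial (ZMod q) := by
    have : Fact (1 < q) := ⟨by omega⟩
    infer_instance
  have h2ne : (2 : ZMod q) ≠ 0 := by
    intro h2
    have h3 : ((2 : ℕ) : ZMod q) = 0 := by exact_mod_cast h2
    rw [ZMod.natCast_eq_zero_iff] at h3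
    have := Nat.le_of_dvd (by norm_num) h3
    omega
  unfold latN
  rw [Finset.card_eq_zero, Finset.filter_eq_empty_iff]
  rintro a - ⟨h1, h2⟩
  push_cast at h1
  -- pick an index with nonzero coordinate
  have hi : ∃ i, a i ≠ 0 := by
    by_contra hc
    push Not at hc
    simp [hc] at h1
  obtain ⟨i, hi⟩ := hi
  have hi1 : 1 ≤ |a i| := Int.one_le_abs hi
  rw [← Finset.add_sum_erase univ _ (mem_univ i)] at h1
  have hnn : ∀ j ∈ univ.erase i, 0 ≤ |a j| := fun j _ => abs_nonneg _
  by_cases hrest : ∃ j ∈ univ.erase i, a j ≠ 0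
  · obtain ⟨j, hj, hj0⟩ := hrest
    have hij : i ≠ j := (Finset.ne_of_mem_erase hj).symm
    have hj1 : 1 ≤ |a j| := Int.one_le_abs hj0
    rw [← Finset.add_sum_erase (univ.erase i) _ hj] at h1
    have hnn2 : 0 ≤ ∑ x ∈ (univ.erase i).erase j, |a x| :=
      Finset.sum_nonneg fun x _ => abs_nonneg _
    have hz : ∑ x ∈ (univ.erase i).erase j, |a x| = 0 := by omega
    have hz' : ∀ x ∈ (univ.erase i).erase j, a x = 0 := by
      intro x hx
      have := (Finset.sum_eq_zero_iff_of_nonneg (fun x _ => abs_nonneg (a x))).mp hz x hx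
      exact abs_eq_zero.mp this
    have hai : |a i| = 1 := by omega
    have haj : |a j| = 1 := by omega
    rw [← Finset.add_sum_erase univ _ (mem_univ i), ← Finset.add_sum_erase (univ.erase i) _ hj,
      Finset.sum_eq_zero (s := (univ.erase i).erase j) (fun x hx => by rw [hz' x hx]; simp)] at h2
    obtain ⟨hn1, hn2⟩ := hu i j hij
    rcases (abs_eq (by norm_num)).mp hai with h3 | h3 <;>
      rcases (abs_eq (by norm_num)).mp haj with h4 | h4 <;>
      rw [h3, h4] at h2 <;> push_cast at h2
    · exact hn2 (by linear_combination h2)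
    · exact hn1 (by linear_combination h2)
    · exact hn1 (by linear_combination -h2)
    · exact hn2 (by linear_combination -h2)
  · push Not at hrest
    have hz : ∑ x ∈ univ.erase i, |a x| = 0 :=
      Finset.sum_eq_zero fun x hx => by rw [hrest x hx]; simp
    have hai : |a i| = 2 := by omega
    rw [← Finset.add_sum_erase univ _ (mem_univ i),
      Finset.sum_eq_zero (s := univ.erase i) (fun x hx => by rw [hrest x hx]; simp), add_zero] at h2
    have h5 : ((a i : ℤ) : ZMod q) = 0 := by
      rcases (Units.mul_left_eq_zero (u i)).mp h2 with h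
      exact h
    rcases (abs_eq (by norm_num)).mp hai with h3 | h3 <;> rw [h3] at h5 <;> push_cast at h5
    · exact h2ne h5
    · exact h2ne (by linear_combination -h5)

theorem nondeg_of_latN_two {q : ℕ} (v : Fin n → (ZMod q)ˣ)
    (h : latN q (fun j => (v j : ZMod q)) 2 = 0) : Nondeg v := by
  have key : ∀ i j : Fin n, i ≠ j → ∀ e : ℤ, (e = 1 ∨ e = -1) →
      (v i : ZMod q) + (e : ZMod q) * v j ≠ 0 := by
    intro i j hij e he h0
    unfold latN at h
    rw [Finset.card_eq_zero, Finset.filter_eq_empty_iff] at h
    have habs : |e| = 1 := by rcases he with he | he <;> rw [he] <;> simp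
    refine h (x := Pi.single i 1 + Pi.single j e) ?_ ⟨?_, ?_⟩
    · rw [Fintype.mem_piFinset]
      intro x
      rw [Finset.mem_Icc, Pi.add_apply, Pi.single_apply, Pi.single_apply]
      rcases he with he | he <;> split_ifs <;> simp_all <;> omega
    · rw [← Finset.add_sum_erase univ _ (mem_univ i), ← Finset.add_sum_erase (univ.erase i) _
        (Finset.mem_erase.mpr ⟨hij.symm, mem_univ j⟩), Finset.sum_eq_zero]
      · simp [hij, hij.symm, habs]
      · intro x hx
        have h1 := Finset.ne_of_mem_erase hx
        have h2 := Finset.ne_of_mem_erase (Finset.mem_of_mem_erase hx)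
        simp [h1, h2]
    · rw [← Finset.add_sum_erase univ _ (mem_univ i), ← Finset.add_sum_erase (univ.erase i) _
        (Finset.mem_erase.mpr ⟨hij.symm, mem_univ j⟩), Finset.sum_eq_zero]
      · simp only [Pi.add_apply, Pi.single_eq_same, Pi.single_eq_of_ne hij,
          Pi.single_eq_of_ne hij.symm]
        push_cast
        linear_combination h0
      · intro x hx
        have h1 := Finset.ne_of_mem_erase hx
        have h2 := Finset.ne_of_mem_erase (Finset.mem_of_mem_erase hx)
        simp [h1, h2]
  intro i j hij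
  constructor
  · intro h1
    refine key i j hij (-1) (Or.inr rfl) ?_
    push_cast
    linear_combination h1
  · intro h1
    refine key i j hij 1 (Or.inl rfl) ?_
    push_cast
    linear_combination h1

end Pool.Agent.Hhelper63.Lens
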