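import Mathlib
import Pool.Agent.Hhelper63.Lens.Residue

set_option autoImplicit false

namespace Pool.Agent.Hhelper63.Lens

open Finset

variable {n : ℕ}

/-- The exponents of the factors as natural numbers. -/
def wexp {q : ℕ} (u : Fin n → (ZMod q)ˣ) (α : Idx n) : ℕ :=
  (1 + ((α.1.2.2 : ℤ) : ZMod q) * ((u α.1.1 : ZMod q) * ((u α.1.2.1)⁻¹ : (ZMod q)ˣ)) : ZMod q).val

open PowerSeries in
theorem reduce_poly (p m : ℕ) [hp : Fact p.Prime] (hpm : ¬ p ∣ m) (hm : 0 < m) (k : Type)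
    [Field k] [CharP k p] (ζ : k) (hζ : IsPrimitiveRoot ζ m) (Ψ : Polynomial ℤ) (ξ : ℂ)
    (hξ : IsPrimitiveRoot ξ (m * p)) (h : Polynomial.aeval ξ Ψ = 0) :
    (X : PowerSeries k) ^ (p - 1) ∣
      Polynomial.eval₂ (Int.castRingHom (PowerSeries k)) (C ζ * (1 + X)) Ψ := by
  have hpos : 0 < m * p := Nat.mul_pos hm hp.out.pos
  have hdvd : Polynomial.cyclotomic (m * p) ℤ ∣ Ψ := by
    rw [Polynomial.cyclotomic_eq_minpoly hξ hpos]
    exact minpoly.isIntegrallyClosed_dvd (hξ.isIntegral hpos) h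
  have h1 : (X : PowerSeries k) ^ (p - 1) ∣
      Polynomial.eval₂ (Int.castRingHom (PowerSeries k)) (C ζ * (1 + X))
        (Polynomial.cyclotomic (m * p) ℤ) := by
    have e1 : (Int.castRingHom (PowerSeries k)) = (C (R := k)).comp (Int.castRingHom k) :=
      RingHom.ext_int _ _
    rw [e1, ← Polynomial.eval₂_map, Polynomial.map_cyclotomic,
      Polynomial.cyclotomic_mul_prime_eq_pow_of_not_dvd k hpm, Polynomial.eval₂_pow]
    apply pow_dvd_pow_of_dvd
    rw [X_dvd_iff, Polynomial.hom_eval₂]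
    have e2 : (constantCoeff (R := k)).comp (C (R := k)) = RingHom.id k := by
      ext x
      simp
    rw [e2, map_mul, map_add, map_one, constantCoeff_X, constantCoeff_C, add_zero, mul_one]
    exact hζ.isRoot_cyclotomic hm
  exact h1.trans (Polynomial.eval₂_dvd _ _ hdvd)

/-- The difference whose vanishing expresses the residue identity. -/
def bigdiff {R : Type*} [CommRing R] (a b : Idx n → R) : R :=
  esum (Dprod a) * ∏ k, Dprod b k - esum (Dprod b) * ∏ j, Dprod a j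

theorem map_bigdiff {R S : Type*} [CommRing R] [CommRing S] (φ : R →+* S) (a b : Idx n → R) :
    φ (bigdiff a b) = bigdiff (fun α => φ (a α)) (fun α => φ (b α)) := by
  unfold bigdiff
  rw [map_sub, map_mul, map_mul, map_esum, map_esum, map_prod, map_prod]
  simp only [map_Dprod]

theorem DC_eq_Dprod {q : ℕ} (ψ : AddChar (ZMod q) ℂ) (u : Fin n → (ZMod q)ˣ) (j : Fin n) :
    DC ψ u j = Dprod (fun α : Idx n => 1 - ψ (1 + ((α.1.2.2 : ℤ) : ZMod q) *
      ((u α.1.1 : ZMod q) * ((u α.1.2.1)⁻¹ : (ZMod q)ˣ)))) j := by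
  rw [Dprod_eq (fun i j ε => 1 - ψ (1 + (((ε : ℤˣ) : ℤ) : ZMod q) *
      ((u i : ZMod q) * ((u j)⁻¹ : (ZMod q)ˣ))))]
  unfold DC
  refine Finset.prod_congr rfl fun i _ => ?_
  simp only [Units.val_one, Int.cast_one, one_mul, Units.val_neg, Int.cast_neg, neg_mul,
    sub_eq_add_neg]

open PowerSeries in
/-- The residue identity reduced to characteristic `p`. -/
theorem reduced_identity (p m : ℕ) [hp : Fact p.Prime] (hpm : ¬ p ∣ m) (hm : 0 < m)
    (hq : 3 ≤ m * p)
    (k : Type) [Field k] [CharP k p] (ζ : k) (hζ : IsPrimitiveRoot ζ m)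
    (u v : Fin n → (ZMod (m * p))ˣ) (hu : Nondeg u) (hv : Nondeg v)
    (h : ∀ t, latN (m * p) (fun j => (u j : ZMod (m * p))) t =
      latN (m * p) (fun j => (v j : ZMod (m * p))) t) :
    (X : PowerSeries k) ^ (p - 1) ∣
      bigdiff (fun α : Idx n => 1 - C (ζ ^ wexp u α) * (1 + X) ^ wexp u α)
        (fun α : Idx n => 1 - C (ζ ^ wexp v α) * (1 + X) ^ wexp v α) := by
  have hpos : 0 < m * p := Nat.mul_pos hm hp.out.pos
  have : NeZero (m * p) := ⟨hpos.ne'⟩
  obtain ⟨ξ, hξ⟩ : ∃ ξ : ℂ, IsPrimitiveRoot ξ (m * p) :=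
    ⟨_, Complex.isPrimitiveRoot_exp _ hpos.ne'⟩
  let ψ : AddChar (ZMod (m * p)) ℂ := AddChar.zmodChar (m * p) hξ.pow_eq_one
  have hψ : ψ.IsPrimitive := AddChar.zmodChar_primitive_of_primitive_root (m * p) hξ
  have hψv : ∀ a, ψ a = ξ ^ a.val := fun a => AddChar.zmodChar_apply _ a
  have hid := residue_identity (m * p) hq ψ hψ u v hu hv h
  have hcl := esum_mul_prod_of_sum_inv (DC ψ u) (DC ψ v) (DC_ne_zero hψ u hu)
    (DC_ne_zero hψ v hv) hid
  have hD : ∀ w : Fin n → (ZMod (m * p))ˣ, DC ψ w = Dprod (fun α : Idx n => 1 - ξ ^ wexp w α) := by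
    intro w
    funext j
    rw [DC_eq_Dprod]
    simp only [hψv]
    rfl
  rw [hD, hD] at hcl
  have hbig : bigdiff (fun α : Idx n => 1 - ξ ^ wexp u α) (fun α : Idx n => 1 - ξ ^ wexp v α) = 0 := by
    unfold bigdiff
    rw [hcl, sub_self]
  let Ψ : Polynomial ℤ := bigdiff (fun α : Idx n => 1 - Polynomial.X ^ wexp u α)
    (fun α : Idx n => 1 - Polynomial.X ^ wexp v α)
  have hΨ : Polynomial.aeval ξ Ψ = 0 := by
    rw [← hbig]
    have := map_bigdiff ((Polynomial.aeval ξ : Polynomial ℤ →ₐ[ℤ] ℂ) : Polynomial ℤ →+* ℂ)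
      (fun α : Idx n => 1 - Polynomial.X ^ wexp u α)
      (fun α : Idx n => 1 - Polynomial.X ^ wexp v α)
    refine this.trans ?_
    simp
  have hred := reduce_poly p m hpm hm k ζ hζ Ψ ξ hξ hΨ
  have h2 := map_bigdiff (Polynomial.eval₂RingHom (Int.castRingHom (PowerSeries k))
    (C ζ * (1 + X))) (fun α : Idx n => 1 - Polynomial.X ^ wexp u α)
      (fun α : Idx n => 1 - Polynomial.X ^ wexp v α)
  rw [Polynomial.coe_eval₂RingHom] at h2
  rw [h2] at hred
  simp only [Polynomial.eval₂_sub, Polynomial.eval₂_one, Polynomial.eval₂_pow,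
    Polynomial.eval₂_X, mul_pow, ← map_pow] at hred
  exact hred

end Pool.Agent.Hhelper63.Lens
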