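import Mathlib
import Pool.Agent.Hhelper63.Lens.Basic

set_option autoImplicit false

namespace Pool.Agent.Hhelper63.Lens

open Finset PowerSeries

section one

variable {L : Type} [Field L] [CharZero L]

theorem succ_mul_choose (a : L) (t : ℕ) :
    ((t : L) + 1) * Ring.choose a (t + 1) = Ring.choose a t * (a - t) := by
  have h := Ring.choose_smul_choose a (Nat.le_succ t)
  rw [Nat.succ_eq_add_one, Nat.choose_succ_self_right, Nat.add_sub_cancel_left,
    Ring.choose_one_right, nsmul_eq_mul] at h
  push_cast at h
  exact h

/-- The Euler-type operator `(1 + X) d/dX`. -/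
noncomputable def dop (L : Type) [Field L] : Module.End L (PowerSeries L) :=
  (LinearMap.mulLeft L (1 + X : PowerSeries L)) ∘ₗ (PowerSeries.derivative L).toLinearMap

theorem dop_binomialSeries (a : L) :
    dop L (binomialSeries L a) = a • binomialSeries L a := by
  ext t
  have h1 : dop L (binomialSeries L a) =
      (1 + X : PowerSeries L) * PowerSeries.derivative L (binomialSeries L a) := rfl
  rw [h1, add_mul, one_mul, map_add, coeff_derivative]
  cases t with
  | zero =>
    rw [coeff_zero_X_mul]
    simp
  | succ t =>
    rw [coeff_succ_X_mul, coeff_derivative]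
    simp only [binomialSeries_coeff, smul_eq_mul, mul_one, map_smul]
    have h2 := succ_mul_choose a (t + 1)
    have h3 := succ_mul_choose a t
    push_cast at h2 ⊢
    linear_combination h2

theorem binomialSeries_ne_zero (a : L) : binomialSeries L a ≠ 0 := by
  intro h
  have := congrArg (coeff 0) h
  simp at this

theorem linearIndependent_binomialSeries :
    LinearIndependent L (fun a : L => binomialSeries L a) := by
  apply Module.End.eigenvectors_linearIndependent' (dop L) (fun a => a) (fun _ _ h => h)
  intro a
  rw [Module.End.hasEigenvector_iff]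
  exact ⟨Module.End.mem_eigenspace_iff.mpr (dop_binomialSeries a), binomialSeries_ne_zero a⟩

/-- The homomorphism from the group algebra of the additive group of `L` to power series,
sending `E^a` to `(1 + X)^a`. -/
noncomputable def toSeries (L : Type) [Field L] [CharZero L] :
    AddMonoidAlgebra L L →+* PowerSeries L :=
  AddMonoidAlgebra.liftNCRingHom (PowerSeries.C (R := L))
    { toFun := fun a => binomialSeries L (a.toAdd)
      map_one' := by simp
      map_mul' := by intro a b; simp } (fun _ _ => Commute.all _ _)

theorem toSeries_single (a c : L) :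
    toSeries L (AddMonoidAlgebra.single a c) = C c * binomialSeries L a := by
  unfold toSeries
  rw [AddMonoidAlgebra.liftNCRingHom_single]
  rfl

theorem toSeries_eq (f : AddMonoidAlgebra L L) :
    toSeries L f = Finsupp.linearCombination L (fun a : L => binomialSeries L a) f.coeff := by
  induction f using AddMonoidAlgebra.induction_linear with
  | zero => simp
  | add f g hf hg => rw [map_add, hf, hg, AddMonoidAlgebra.coeff_add, map_add]
  | single a b =>
    rw [toSeries_single, AddMonoidAlgebra.coeff_single, Finsupp.linearCombination_single,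
      PowerSeries.smul_eq_C_mul]

theorem toSeries_injective : Function.Injective (toSeries L) := by
  rw [injective_iff_map_eq_zero]
  intro f hf
  rw [toSeries_eq] at hf
  have := (linearIndependent_iff.mp linearIndependent_binomialSeries) _ hf
  exact AddMonoidAlgebra.coeff_eq_zero.mp this

end one

section two

variable {ι : Type} {k : ι → Type} [∀ i, Field (k i)] {L : Type} [Field L]

/-- The map on power series induced by a homomorphism from a product of fields. -/
noncomputable def theta (π : (∀ i, k i) →+* L) : (∀ i, PowerSeries (k i)) →+* PowerSeries L where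
  toFun F := PowerSeries.mk fun t => π fun i => coeff t (F i)
  map_one' := by
    ext t
    rw [coeff_mk]
    have h : (fun i => coeff t ((1 : ∀ i, PowerSeries (k i)) i)) =
        (if t = 0 then 1 else 0 : ∀ i, k i) := by
      funext i
      rw [Pi.one_apply, coeff_one]
      split_ifs <;> rfl
    rw [h, coeff_one]
    split_ifs <;> simp
  map_mul' := by
    intro F G
    ext t
    rw [coeff_mk, coeff_mul]
    have h : (fun i => coeff t ((F * G) i)) =
        ∑ p ∈ antidiagonal t, (fun i => coeff p.1 (F i)) * (fun i => coeff p.2 (G i)) := by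
      funext i
      rw [Pi.mul_apply, coeff_mul, Finset.sum_apply]
      rfl
    rw [h, map_sum]
    simp_rw [map_mul, coeff_mk]
  map_zero' := by
    ext t
    rw [coeff_mk]
    have h : (fun i => coeff t ((0 : ∀ i, PowerSeries (k i)) i)) = (0 : ∀ i, k i) := by
      funext i
      simp
    rw [h]
    simp
  map_add' := by
    intro F G
    ext t
    rw [coeff_mk, map_add, coeff_mk, coeff_mk, ← map_add]
    congr 1

theorem coeff_theta (π : (∀ i, k i) →+* L) (F : ∀ i, PowerSeries (k i)) (t : ℕ) :
    coeff t (theta π F) = π fun i => coeff t (F i) := by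
  change coeff t (PowerSeries.mk fun t => π fun i => coeff t (F i)) = _
  rw [coeff_mk]

theorem theta_C (π : (∀ i, k i) →+* L) (c : ∀ i, k i) :
    theta π (fun i => C (c i)) = C (π c) := by
  ext t
  rw [coeff_theta, coeff_C]
  simp_rw [coeff_C]
  split_ifs
  · rfl
  · exact map_zero π

theorem choose_cast_aux {K : Type*} [Field K] (A t : ℕ) :
    ((t : K) + 1) * ((A.choose (t + 1) : ℕ) : K) = ((A.choose t : ℕ) : K) * ((A : K) - t) := by
  rcases le_or_gt t A with h | h
  · have h1 := Nat.choose_succ_right_eq A t
    have h2 := congrArg (Nat.cast : ℕ → K) h1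
    push_cast [Nat.cast_sub h] at h2
    linear_combination h2
  · rw [Nat.choose_eq_zero_of_lt h, Nat.choose_eq_zero_of_lt (by omega)]
    simp

theorem coeff_one_add_X_pow' (K : Type*) [Field K] (A t : ℕ) :
    coeff t ((1 + X : PowerSeries K) ^ A) = ((A.choose t : ℕ) : K) := by
  have hright : (1 + X : PowerSeries K) ^ A =
      (((1 : Polynomial K) + (Polynomial.X)) ^ A).toPowerSeries := by
    simp
  rw [hright, Polynomial.coeff_coe, Polynomial.coeff_one_add_X_pow]

theorem theta_one_add_X_pow [CharZero L] (π : (∀ i, k i) →+* L) (A : ι → ℕ) :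
    theta π (fun i => (1 + X) ^ (A i)) = binomialSeries L (π fun i => (A i : k i)) := by
  ext t
  rw [coeff_theta, binomialSeries_coeff, smul_eq_mul, mul_one]
  simp_rw [coeff_one_add_X_pow']
  induction t with
  | zero =>
    rw [Ring.choose_zero_right]
    simp only [Nat.choose_zero_right, Nat.cast_one]
    exact map_one π
  | succ t ih =>
    have ht : ((t : L) + 1) ≠ 0 := by exact_mod_cast Nat.succ_ne_zero t
    apply mul_left_cancel₀ ht
    rw [succ_mul_choose, ← ih]
    have e1 : ((t : L) + 1) = π (fun i => ((t : k i) + 1)) := by
      have : (fun i => ((t : k i) + 1)) = ((t : ∀ i, k i) + 1) := by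
        funext i
        simp
      rw [this]
      simp
    have e2 : ((π fun i => (A i : k i)) - t) = π (fun i => ((A i : k i) - t)) := by
      have : (fun i => ((A i : k i) - t)) = ((fun i => (A i : k i)) - (t : ∀ i, k i)) := by
        funext i
        simp
      rw [this]
      simp
    rw [e1, e2, ← map_mul, ← map_mul]
    congr 1
    funext i
    exact choose_cast_aux (A i) t

theorem theta_eq_zero (U : Ultrafilter ι) (π : (∀ i, k i) →+* L)
    (hπ : ∀ f, π f = 0 ↔ ∀ᶠ i in (U : Filter ι), f i = 0)
    (F : ∀ i, PowerSeries (k i)) (N : ι → ℕ) (hN : ∀ t, ∀ᶠ i in (U : Filter ι), t < N i)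
    (h : ∀ᶠ i in (U : Filter ι), (X : PowerSeries (k i)) ^ (N i) ∣ F i) : theta π F = 0 := by
  ext t
  rw [coeff_theta, map_zero, hπ]
  filter_upwards [hN t, h] with i h1 h2
  rw [X_pow_dvd_iff] at h2
  exact h2 t h1

end two

end Pool.Agent.Hhelper63.Lens
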