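import Mathlib

set_option autoImplicit false

namespace Pool.Agent.Hhelper63.Lens

open Filter

/-- The ideal of families that vanish almost everywhere along an ultrafilter. -/
def ultraIdeal {ι : Type} (U : Ultrafilter ι) (k : ι → Type) [∀ i, Field (k i)] :
    Ideal (∀ i, k i) where
  carrier := {f | ∀ᶠ i in (U : Filter ι), f i = 0}
  add_mem' := by
    intro a b ha hb
    filter_upwards [ha, hb] with i h1 h2
    simp [h1, h2]
  zero_mem' := by simp
  smul_mem' := by
    intro c x hx
    filter_upwards [hx] with i h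
    simp [h]

theorem mem_ultraIdeal {ι : Type} (U : Ultrafilter ι) (k : ι → Type) [∀ i, Field (k i)]
    (f : ∀ i, k i) : f ∈ ultraIdeal U k ↔ ∀ᶠ i in (U : Filter ι), f i = 0 := Iff.rfl

instance ultraIdeal_isPrime {ι : Type} (U : Ultrafilter ι) (k : ι → Type) [∀ i, Field (k i)] :
    (ultraIdeal U k).IsPrime where
  ne_top' := by
    intro h
    have h1 : (1 : ∀ i, k i) ∈ ultraIdeal U k := by rw [h]; trivial
    rw [mem_ultraIdeal] at h1
    simp only [Pi.one_apply, one_ne_zero, eventually_false_iff_eq_bot] at h1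
    exact U.neBot.ne h1
  mem_or_mem' := by
    intro a b hab
    rw [mem_ultraIdeal] at hab
    have : ∀ᶠ i in (U : Filter ι), a i = 0 ∨ b i = 0 := by
      filter_upwards [hab] with i h
      simpa using h
    rcases Ultrafilter.eventually_or.mp this with h | h
    · exact Or.inl h
    · exact Or.inr h

/-- The ultraproduct of a family of fields embeds in an algebraically closed field. -/
theorem exists_ultraproduct {ι : Type} (U : Ultrafilter ι) (k : ι → Type) [∀ i, Field (k i)] :
    ∃ (L : Type) (_ : Field L) (_ : IsAlgClosed L) (π : (∀ i, k i) →+* L),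
      ∀ f, π f = 0 ↔ ∀ᶠ i in (U : Filter ι), f i = 0 := by
  refine ⟨AlgebraicClosure (FractionRing ((∀ i, k i) ⧸ ultraIdeal U k)), inferInstance,
    inferInstance, ((algebraMap (FractionRing ((∀ i, k i) ⧸ ultraIdeal U k)) _).comp
      (algebraMap ((∀ i, k i) ⧸ ultraIdeal U k) _)).comp (Ideal.Quotient.mk _), ?_⟩
  intro f
  rw [RingHom.comp_apply, RingHom.comp_apply, map_eq_zero,
    (FaithfulSMul.algebraMap_injective ((∀ i, k i) ⧸ ultraIdeal U k)
      (FractionRing ((∀ i, k i) ⧸ ultraIdeal U k))).eq_iff' (map_zero _),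
    Ideal.Quotient.eq_zero_iff_mem, mem_ultraIdeal]

end Pool.Agent.Hhelper63.Lens
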