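import Mathlib
import Pool.Agent.Hhelper63.Lens.Ultra
import Pool.Agent.Hhelper63.Lens.Series
import Pool.Agent.Hhelper63.Lens.Generic
import Pool.Agent.Hhelper63.Lens.Reduce
import Pool.Agent.Hhelper63.Lens.Nondeg

set_option autoImplicit false

namespace Pool.Agent.Hhelper63.Lens

open Finset Filter

variable {n : ℕ}

/-- The combinatorial isometry relation. -/
def IsoU {q : ℕ} (u v : Fin n → (ZMod q)ˣ) : Prop :=
  ∃ σ : Equiv.Perm (Fin n), ∃ ε : Fin n → ℤˣ, ∃ t : (ZMod q)ˣ,
    ∀ j, (v j : ZMod q) = ((ε j : ℤ) : ZMod q) * t * u (σ j)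

/-- reduction map to a field of characteristic `p` -/
noncomputable def redMap (m p : ℕ) (k : Type) [Field k] [CharP k p] : ZMod (m * p) →+* k :=
  (ZMod.castHom (dvd_refl p) k).comp (ZMod.castHom (dvd_mul_left p m) (ZMod p))

theorem redMap_wexp (m p : ℕ) [NeZero (m * p)] (k : Type) [Field k] [CharP k p]
    (u : Fin n → (ZMod (m * p))ˣ) (α : Idx n) :
    ((wexp u α : ℕ) : k) = 1 + ((α.1.2.2 : ℤ) : k) *
      (redMap m p k (u α.1.1) / redMap m p k (u α.1.2.1)) := by
  have h1 : ((wexp u α : ℕ) : k) = redMap m p k ((wexp u α : ℕ) : ZMod (m * p)) := by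
    rw [map_natCast]
  rw [h1]
  unfold wexp
  rw [ZMod.natCast_zmod_val, map_add, map_one, map_mul, map_intCast, map_mul]
  congr 2
  rw [div_eq_mul_inv]
  congr 1
  apply eq_inv_of_mul_eq_one_left
  rw [← map_mul, Units.inv_mul, map_one]

theorem redMap_unit_ne_zero (m p : ℕ) (k : Type) [Field k] [CharP k p]
    (u : (ZMod (m * p))ˣ) : redMap m p k u ≠ 0 := by
  intro h
  have h1 : redMap m p k (u * (u⁻¹ : (ZMod (m * p))ˣ)) = 1 := by
    rw [Units.mul_inv, map_one]
  rw [map_mul, h, zero_mul] at h1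
  exact zero_ne_one h1

/-- From equality of exponents for all pairs to isometry. -/
theorem isoU_of_wexp {q : ℕ} [NeZero q] (hn : 0 < n) (u v : Fin n → (ZMod q)ˣ)
    (σ : Equiv.Perm (Fin n)) (e : Fin n → Fin n → ℤˣ)
    (h : ∀ i j (hij : i ≠ j), wexp v ⟨(i, j, 1), hij⟩ =
      wexp u ⟨(σ i, σ j, e i j), fun h' => hij (σ.injective h')⟩) : IsoU u v := by
  let j0 : Fin n := ⟨0, hn⟩
  refine ⟨σ, fun j => if j = j0 then 1 else e j j0, v j0 * (u (σ j0))⁻¹, fun j => ?_⟩
  by_cases hj : j = j0
  · subst hj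
    beta_reduce
    rw [if_pos rfl]
    simp only [Units.val_one, Int.cast_one, one_mul, Units.val_mul, mul_assoc, Units.inv_mul,
      mul_one]
  · beta_reduce
    rw [if_neg hj]
    have h1 := h j j0 hj
    unfold wexp at h1
    have h2 := ZMod.val_injective q h1
    simp only [Units.val_one, Int.cast_one, one_mul] at h2
    have h3 := add_left_cancel h2
    have h4 : (v j : ZMod q) = (v j * ((v j0)⁻¹ : (ZMod q)ˣ)) * v j0 := by
      rw [mul_assoc, Units.inv_mul, mul_one]
    rw [h4, h3]
    push_cast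
    ring

theorem exists_field_root (p m : ℕ) [hpr : Fact p.Prime] (hpm : ¬ p ∣ m) (hm : 0 < m) :
    ∃ (k : Type) (_ : Field k) (_ : CharP k p) (ζ : k), IsPrimitiveRoot ζ m := by
  refine ⟨AlgebraicClosure (ZMod p), inferInstance, inferInstance, ?_⟩
  have hm0 : ((m : ℕ) : AlgebraicClosure (ZMod p)) ≠ 0 := by
    intro h0
    exact hpm ((CharP.cast_eq_zero_iff (AlgebraicClosure (ZMod p)) p m).mp h0)
  have : NeZero ((m : ℕ) : AlgebraicClosure (ZMod p)) := ⟨hm0⟩
  obtain ⟨ζ, hζ⟩ := IsAlgClosed.exists_root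
    (Polynomial.cyclotomic m (AlgebraicClosure (ZMod p)))
    (Polynomial.degree_cyclotomic_pos m (AlgebraicClosure (ZMod p)) hm).ne'
  exact ⟨ζ, (Polynomial.isRoot_cyclotomic_iff).mp hζ⟩

theorem map_eval₂_int {A B σ : Type*} [CommRing A] [CommRing B] (f : A →+* B) (g : σ → A)
    (P : MvPolynomial σ ℤ) :
    f (MvPolynomial.eval₂ (Int.castRingHom A) g P) = MvPolynomial.aeval (fun j => f (g j)) P := by
  induction P using MvPolynomial.induction_on with
  | C a =>
    rw [MvPolynomial.eval₂_C, MvPolynomial.aeval_C]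
    simp
  | add p q hp hq => rw [MvPolynomial.eval₂_add, map_add, map_add, hp, hq]
  | mul_X p i hp =>
    rw [MvPolynomial.eval₂_mul, map_mul, map_mul, hp, MvPolynomial.aeval_X, MvPolynomial.eval₂_X]

set_option maxHeartbeats 1000000 in
/-- The ultraproduct argument. -/
theorem core {ι : Type} (U : Ultrafilter ι) (hn : 0 < n) (p m : ι → ℕ)
    [hpr : ∀ i, Fact (p i).Prime]
    (hpm : ∀ i, ¬ p i ∣ m i) (hm : ∀ i, 0 < m i)
    (hp : ∀ N : ℕ, ∀ᶠ i in (U : Filter ι), N < p i)
    (u v : ∀ i, Fin n → (ZMod (m i * p i))ˣ)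
    (hgen : ∀ P : MvPolynomial (Fin n) ℤ, P ≠ 0 → ∀ᶠ i in (U : Filter ι),
      MvPolynomial.aeval (fun j => ZMod.castHom (dvd_mul_left (p i) (m i)) (ZMod (p i))
        (u i j : ZMod (m i * p i))) P ≠ 0)
    (h : ∀ i t, latN (m i * p i) (fun j => (u i j : ZMod (m i * p i))) t =
      latN (m i * p i) (fun j => (v i j : ZMod (m i * p i))) t) :
    ∀ᶠ i in (U : Filter ι), IsoU (u i) (v i) := by
  classical
  have hne : ∀ i, NeZero (m i * p i) := fun i =>
    ⟨(Nat.mul_pos (hm i) (hpr i).out.pos).ne'⟩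
  choose k _ _ ζ hζ using fun i => exists_field_root (p i) (m i) (hpm i) (hm i)
  obtain ⟨L, _, _, π, hπ⟩ := exists_ultraproduct U k
  have hL0 : CharZero L := by
    apply charZero_of_inj_zero
    intro N hN
    by_contra hN0
    have h1 : π (fun i => (N : k i)) = 0 := by
      have : (fun i => (N : k i)) = ((N : ℕ) : ∀ i, k i) := by
        funext i
        simp
      rw [this, map_natCast, hN]
    rw [hπ] at h1
    obtain ⟨i, h2, h3⟩ := (h1.and (hp N)).exists
    rw [CharP.cast_eq_zero_iff (k i) (p i)] at h2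
    exact absurd (Nat.le_of_dvd (Nat.pos_of_ne_zero hN0) h2) (by omega)
  let c : ∀ i, ZMod (m i * p i) →+* k i := fun i => redMap (m i) (p i) (k i)
  let x : Fin n → L := fun j => π fun i => c i (u i j)
  let y : Fin n → L := fun j => π fun i => c i (v i j)
  have hζ0 : ∀ i, ζ i ≠ 0 := fun i => (hζ i).ne_zero (hm i).ne'
  have hzne : ∀ w : ι → ℕ, π (fun i => ζ i ^ w i) ≠ 0 := by
    intro w h0
    rw [hπ] at h0
    obtain ⟨i, hi⟩ := h0.exists
    exact pow_ne_zero _ (hζ0 i) hi
  let z : Idx n → Lˣ := fun α => Units.mk0 (π fun i => ζ i ^ wexp (u i) α) (hzne _)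
  let z' : Idx n → Lˣ := fun α => Units.mk0 (π fun i => ζ i ^ wexp (v i) α) (hzne _)
  have hcne : ∀ (w : ∀ i, (ZMod (m i * p i))ˣ), π (fun i => c i (w i)) ≠ 0 := by
    intro w h0
    rw [hπ] at h0
    obtain ⟨i, hi⟩ := h0.exists
    exact redMap_unit_ne_zero _ _ _ _ hi
  -- exponents
  have hdiv : ∀ (f g : ∀ i, k i), π g ≠ 0 → π (fun i => f i / g i) = π f / π g := by
    intro f g hg
    rw [eq_div_iff hg, ← map_mul, ← sub_eq_zero, ← map_sub, hπ]
    have hg' : ∀ᶠ i in (U : Filter ι), g i ≠ 0 := by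
      have := (not_congr (hπ g)).mp hg
      exact Ultrafilter.eventually_not.mpr this
    filter_upwards [hg'] with i hi
    simp only [Pi.sub_apply, Pi.mul_apply]
    rw [div_mul_cancel₀ _ hi, sub_self]
  have hexp : ∀ (w : ∀ i, Fin n → (ZMod (m i * p i))ˣ) (α : Idx n),
      π (fun i => ((wexp (w i) α : ℕ) : k i)) = aexp (fun j => π fun i => c i (w i j)) α := by
    intro w α
    have h1 : (fun i => ((wexp (w i) α : ℕ) : k i)) = 1 + ((α.1.2.2 : ℤ) : ∀ i, k i) *
        (fun i => c i (w i α.1.1) / c i (w i α.1.2.1)) := by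
      funext i
      rw [redMap_wexp]
      simp [c]
    rw [h1, map_add, map_one, map_mul, map_intCast, hdiv _ _ (hcne fun i => w i α.1.2.1)]
    rfl
  have hx : Generic x := by
    apply generic_of_algebraic
    intro P hP h0
    let g : Fin n → (∀ i, k i) := fun j i => c i (u i j)
    have h1 : π (MvPolynomial.eval₂ (Int.castRingHom (∀ i, k i)) g P) =
        MvPolynomial.aeval x P := map_eval₂_int π g P
    rw [← h1, hπ] at h0
    obtain ⟨i, hi1, hi2⟩ := (h0.and (hgen P hP)).exists
    apply hi2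
    apply (ZMod.castHom (dvd_refl (p i)) (k i)).injective
    have h2 := map_eval₂_int (Pi.evalRingHom k i) g P
    rw [Pi.evalRingHom_apply, hi1] at h2
    have h3 := map_eval₂_int (ZMod.castHom (dvd_refl (p i)) (k i))
      (fun j => ZMod.castHom (dvd_mul_left (p i) (m i)) (ZMod (p i))
        (u i j : ZMod (m i * p i))) P
    rw [map_zero, h2, MvPolynomial.aeval_def]
    exact h3
  -- nondegeneracy
  have hq3 : ∀ᶠ i in (U : Filter ι), 3 ≤ m i * p i := by
    filter_upwards [hp 3] with i hi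
    nlinarith [hm i]
  have hnu : ∀ᶠ i in (U : Filter ι), Nondeg (u i) := by
    have hev : ∀ a b : Fin n, a ≠ b → ∀ᶠ i in (U : Filter ι),
        (u i a : ZMod (m i * p i)) ≠ u i b ∧ (u i a : ZMod (m i * p i)) ≠ -(u i b) := by
      intro a b hab
      have hP1 : (MvPolynomial.X a - MvPolynomial.X b : MvPolynomial (Fin n) ℤ) ≠ 0 := by
        rw [sub_ne_zero]
        intro h0
        exact hab (MvPolynomial.X_injective h0)
      have hP2 : (MvPolynomial.X a + MvPolynomial.X b : MvPolynomial (Fin n) ℤ) ≠ 0 := by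
        intro h0
        have := congrArg (MvPolynomial.eval (fun _ => (1 : ℤ))) h0
        simp at this
      filter_upwards [hgen _ hP1, hgen _ hP2] with i h1 h2
      constructor
      · intro h3
        apply h1
        rw [map_sub, MvPolynomial.aeval_X, MvPolynomial.aeval_X, h3, sub_self]
      · intro h3
        apply h2
        rw [map_add, MvPolynomial.aeval_X, MvPolynomial.aeval_X, h3, map_neg, neg_add_cancel]
    have : ∀ᶠ i in (U : Filter ι), ∀ a b : Fin n, a ≠ b →
        (u i a : ZMod (m i * p i)) ≠ u i b ∧ (u i a : ZMod (m i * p i)) ≠ -(u i b) := by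
      rw [eventually_all]
      intro a
      rw [eventually_all]
      intro b
      by_cases hab : a = b
      · exact Eventually.of_forall fun i h => absurd hab h
      · filter_upwards [hev a b hab] with i hi _
        exact hi
    exact this
  have hnv : ∀ᶠ i in (U : Filter ι), Nondeg (v i) := by
    filter_upwards [hnu, hq3] with i hi h3
    apply nondeg_of_latN_two
    rw [← h i 2]
    exact latN_two_eq_zero h3 _ hi
  -- condition h3
  have h3 : ∀ β : Idx n, aexp y β = 0 → (z' β : L) ≠ 1 := by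
    intro β h0 h1
    have h2 := hexp v β
    rw [show aexp (fun j => π fun i => c i (v i j)) β = 0 from h0, hπ] at h2
    have h4 : π ((fun i => ζ i ^ wexp (v i) β) - 1) = 0 := by
      rw [map_sub, map_one, sub_eq_zero]
      exact h1
    rw [hπ] at h4
    obtain ⟨i, h5, h6, h7⟩ := (h2.and (h4.and hnv)).exists
    simp only [Pi.sub_apply, Pi.one_apply, sub_eq_zero] at h6
    rw [CharP.cast_eq_zero_iff (k i) (p i)] at h5
    have h8 : m i ∣ wexp (v i) β := (hζ i).dvd_of_pow_eq_one _ h6
    have hcop : Nat.Coprime (m i) (p i) := by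
      rw [Nat.coprime_comm, Nat.Prime.coprime_iff_not_dvd (hpr i).out]
      exact hpm i
    have h9 : m i * p i ∣ wexp (v i) β := hcop.mul_dvd_of_dvd_of_dvd h8 h5
    unfold wexp at h9
    have h10 := (ZMod.natCast_eq_zero_iff _ _).mpr h9
    rw [ZMod.natCast_zmod_val] at h10
    obtain ⟨h11, h12⟩ := h7 β.1.1 β.1.2.1 β.2
    have h13 : (v i β.1.1 : ZMod (m i * p i)) =
        (v i β.1.1 * ((v i β.1.2.1)⁻¹ : (ZMod (m i * p i))ˣ)) * v i β.1.2.1 := by
      rw [mul_assoc, Units.inv_mul, mul_one]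
    rcases Int.units_eq_one_or β.1.2.2 with he | he <;> rw [he] at h10 <;>
      simp only [Units.val_one, Int.cast_one, one_mul, Units.val_neg, Int.cast_neg] at h10
    · apply h12
      rw [h13]
      linear_combination (v i β.1.2.1 : ZMod (m i * p i)) * h10
    · apply h11
      rw [h13]
      linear_combination -(v i β.1.2.1 : ZMod (m i * p i)) * h10
  -- the identity
  have h4 : esum (Dprod (fac x z)) * ∏ k, Dprod (fac y z') k =
      esum (Dprod (fac y z')) * ∏ j, Dprod (fac x z) j := by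
    rw [← sub_eq_zero]
    change bigdiff (fac x z) (fac y z') = 0
    apply toSeries_injective
    rw [map_zero, map_bigdiff]
    have hser : ∀ (w : ∀ i, Fin n → (ZMod (m i * p i))ˣ) (α : Idx n),
        toSeries L (1 - AddMonoidAlgebra.single (aexp (fun j => π fun i => c i (w i j)) α)
          (π fun i => ζ i ^ wexp (w i) α)) =
        theta π (fun i => 1 - PowerSeries.C (ζ i ^ wexp (w i) α) *
          (1 + PowerSeries.X) ^ wexp (w i) α) := by
      intro w α
      have h5 : (fun i => 1 - PowerSeries.C (ζ i ^ wexp (w i) α) *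
          (1 + PowerSeries.X) ^ wexp (w i) α : ∀ i, PowerSeries (k i)) =
          1 - (fun i => PowerSeries.C (ζ i ^ wexp (w i) α)) *
            (fun i => (1 + PowerSeries.X) ^ wexp (w i) α) := rfl
      rw [h5, map_sub (theta π), map_one (theta π), map_mul (theta π), theta_C,
        theta_one_add_X_pow, hexp, map_sub, map_one, toSeries_single]
    have h6 : (fun α => toSeries L (fac x z α)) = fun α => theta π (fun i =>
        1 - PowerSeries.C (ζ i ^ wexp (u i) α) * (1 + PowerSeries.X) ^ wexp (u i) α) := by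
      funext α
      exact hser u α
    have h7 : (fun α => toSeries L (fac y z' α)) = fun α => theta π (fun i =>
        1 - PowerSeries.C (ζ i ^ wexp (v i) α) * (1 + PowerSeries.X) ^ wexp (v i) α) := by
      funext α
      exact hser v α
    rw [h6, h7, ← map_bigdiff]
    refine theta_eq_zero U π hπ _ (fun i => p i - 1) (fun t => ?_) ?_
    · filter_upwards [hp (t + 1)] with i hi
      omega
    · filter_upwards [hnu, hnv, hq3] with i h8 h9 h10
      have h11 := reduced_identity (p i) (m i) (hpm i) (hm i) h10 (k i) (ζ i) (hζ i) (u i) (v i)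
        h8 h9 (h i)
      have h12 := map_bigdiff (Pi.evalRingHom (fun i => PowerSeries (k i)) i)
        (fun α => (fun i => 1 - PowerSeries.C (ζ i ^ wexp (u i) α) *
          (1 + PowerSeries.X) ^ wexp (u i) α : ∀ i, PowerSeries (k i)))
        (fun α => (fun i => 1 - PowerSeries.C (ζ i ^ wexp (v i) α) *
          (1 + PowerSeries.X) ^ wexp (v i) α : ∀ i, PowerSeries (k i)))
      rw [Pi.evalRingHom_apply] at h12
      rw [h12]
      exact h11
  have hy : ∀ j, y j ≠ 0 := fun j => hcne fun i => v i j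
  obtain ⟨σ, hσ⟩ := gen_uniq x y z z' hx hy h3 h4
  choose e he1 he2 using hσ
  -- transfer back
  let e' : Fin n → Fin n → ℤˣ := fun i j => if hij : i ≠ j then e i j hij else 1
  have hfin : ∀ a b (hab : a ≠ b), ∀ᶠ i in (U : Filter ι),
      wexp (v i) ⟨(a, b, 1), hab⟩ =
        wexp (u i) ⟨(σ a, σ b, e' a b), fun h' => hab (σ.injective h')⟩ := by
    intro a b hab
    have he' : e' a b = e a b hab := dif_pos hab
    rw [he']
    have h5 : π (fun i => ((wexp (v i) ⟨(a, b, 1), hab⟩ : ℕ) : k i)) =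
        π (fun i => ((wexp (u i) ⟨(σ a, σ b, e a b hab), fun h' => hab (σ.injective h')⟩ : ℕ) :
          k i)) := by
      rw [hexp, hexp]
      change 1 + (((1 : ℤˣ) : ℤ) : L) * (y a / y b) =
        1 + (((e a b hab : ℤˣ) : ℤ) : L) * (x (σ a) / x (σ b))
      rw [he1 a b hab]
      simp
    have h6 : π (fun i => ζ i ^ wexp (v i) ⟨(a, b, 1), hab⟩) =
        π (fun i => ζ i ^ wexp (u i) ⟨(σ a, σ b, e a b hab), fun h' => hab (σ.injective h')⟩) := by
      have := congrArg Units.val (he2 a b hab 1)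
      rw [mul_one] at this
      exact this
    rw [← sub_eq_zero, ← map_sub, hπ] at h5 h6
    filter_upwards [h5, h6] with i h7 h8
    simp only [Pi.sub_apply, sub_eq_zero] at h7 h8
    set A := wexp (v i) ⟨(a, b, 1), hab⟩ with hA
    set B := wexp (u i) ⟨(σ a, σ b, e a b hab), fun h' => hab (σ.injective h')⟩ with hB
    have h9 : A ≡ B [MOD p i] := by
      exact (CharP.natCast_eq_natCast (k i) (p i)).mp h7
    have h10 : A ≡ B [MOD m i] := by
      rw [Nat.modEq_iff_dvd, ← (hζ i).zpow_eq_one_iff_dvd, zpow_sub₀ (hζ0 i), zpow_natCast,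
        zpow_natCast, h8, div_self (pow_ne_zero _ (hζ0 i))]
    have hcop : Nat.Coprime (m i) (p i) := by
      rw [Nat.coprime_comm, Nat.Prime.coprime_iff_not_dvd (hpr i).out]
      exact hpm i
    have h11 : A ≡ B [MOD m i * p i] := (Nat.modEq_and_modEq_iff_modEq_mul hcop).mp ⟨h10, h9⟩
    have hAlt : A < m i * p i := ZMod.val_lt _
    have hBlt : B < m i * p i := ZMod.val_lt _
    exact Nat.ModEq.eq_of_lt_of_lt h11 hAlt hBlt
  have hfin' : ∀ᶠ i in (U : Filter ι), ∀ a b (hab : a ≠ b),
      wexp (v i) ⟨(a, b, 1), hab⟩ =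
        wexp (u i) ⟨(σ a, σ b, e' a b), fun h' => hab (σ.injective h')⟩ := by
    rw [eventually_all]
    intro a
    rw [eventually_all]
    intro b
    by_cases hab : a = b
    · exact Eventually.of_forall fun i h => absurd hab h
    · filter_upwards [hfin a b hab] with i hi _
      exact hi
  filter_upwards [hfin'] with i hi
  exact isoU_of_wexp hn (u i) (v i) σ e' hi

end Pool.Agent.Hhelper63.Lens
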