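import Mathlib
import Pool.Agent.Hhelper63.Lens.Core

set_option autoImplicit false

namespace Pool.Agent.Hhelper63.Lens

open Finset

variable {n : ℕ}

theorem map_ne_zero_of_large (P : MvPolynomial (Fin n) ℤ) (hP : P ≠ 0) :
    ∃ N : ℕ, ∀ p : ℕ, N < p → MvPolynomial.map (Int.castRingHom (ZMod p)) P ≠ 0 := by
  obtain ⟨d, hd⟩ := MvPolynomial.ne_zero_iff.mp hP
  refine ⟨(MvPolynomial.coeff d P).natAbs, fun p hp h0 => ?_⟩
  have h1 := congrArg (MvPolynomial.coeff d) h0
  rw [MvPolynomial.coeff_map, MvPolynomial.coeff_zero, eq_intCast,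
    ZMod.intCast_zmod_eq_zero_iff_dvd] at h1
  have h2 := Int.natAbs_dvd_natAbs.mpr h1
  rw [Int.natAbs_natCast] at h2
  exact absurd (Nat.le_of_dvd (Int.natAbs_pos.mpr hd) h2) (by omega)

theorem zeros_card (p : ℕ) [hpr : Fact p.Prime] (P : MvPolynomial (Fin n) (ZMod p)) (hP : P ≠ 0) :
    (univ.filter (fun x : Fin n → (ZMod p)ˣ =>
      MvPolynomial.eval (fun j => (x j : ZMod p)) P = 0)).card * (p - 1) ≤
      P.totalDegree * (p - 1) ^ n := by
  classical
  let S : Finset (ZMod p) := univ.image (Units.val : (ZMod p)ˣ → ZMod p)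
  have hS : S.card = p - 1 := by
    rw [Finset.card_image_of_injective _ Units.val_injective, Finset.card_univ, ZMod.card_units]
  have hp1 : 0 < p - 1 := Nat.sub_pos_of_lt hpr.out.one_lt
  have h1 : (univ.filter (fun x : Fin n → (ZMod p)ˣ =>
      MvPolynomial.eval (fun j => (x j : ZMod p)) P = 0)).card ≤
      ((Fintype.piFinset fun _ : Fin n => S).filter (fun f => MvPolynomial.eval f P = 0)).card := by
    apply Finset.card_le_card_of_injOn (fun x j => (x j : ZMod p))
    · intro x hx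
      rw [Finset.mem_coe, Finset.mem_filter] at hx ⊢
      refine ⟨?_, hx.2⟩
      rw [Fintype.mem_piFinset]
      intro j
      exact Finset.mem_image_of_mem _ (mem_univ _)
    · intro x _ y _ hxy
      funext j
      exact Units.ext (congrFun hxy j)
  have h2 := MvPolynomial.schwartz_zippel_totalDegree hP S
  rw [hS] at h2
  rw [div_le_div_iff₀ (by positivity) (by positivity)] at h2
  have h3 : ((Fintype.piFinset fun _ : Fin n => S).filter
      (fun f => MvPolynomial.eval f P = 0)).card * (p - 1) ≤ P.totalDegree * (p - 1) ^ n := by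
    exact_mod_cast h2
  exact (Nat.mul_le_mul_right _ h1).trans h3

/-- The reduction modulo `p` of a tuple of units. -/
def redp (m p : ℕ) (u : Fin n → (ZMod (m * p))ˣ) (j : Fin n) : ZMod p :=
  ZMod.castHom (dvd_mul_left p m) (ZMod p) (u j : ZMod (m * p))

theorem zeros_card_lift (p m : ℕ) [hpr : Fact p.Prime] (hpm : ¬ p ∣ m) (hm : 0 < m)
    [NeZero (m * p)]
    (P : MvPolynomial (Fin n) ℤ) (hP : MvPolynomial.map (Int.castRingHom (ZMod p)) P ≠ 0) :
    (univ.filter (fun u : Fin n → (ZMod (m * p))ˣ =>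
      MvPolynomial.aeval (redp m p u) P = 0)).card * (p - 1) ≤
      P.totalDegree * Fintype.card (Fin n → (ZMod (m * p))ˣ) := by
  classical
  have hne : NeZero m := ⟨hm.ne'⟩
  have hcop : Nat.Coprime m p := by
    rw [Nat.coprime_comm, Nat.Prime.coprime_iff_not_dvd hpr.out]
    exact hpm
  let e : (ZMod (m * p))ˣ ≃ (ZMod m)ˣ × (ZMod p)ˣ :=
    ((Units.mapEquiv (ZMod.chineseRemainder hcop).toMulEquiv).trans MulEquiv.prodUnits).toEquiv
  have he : ∀ u : (ZMod (m * p))ˣ, ((e u).2 : ZMod p) =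
      ZMod.castHom (dvd_mul_left p m) (ZMod p) (u : ZMod (m * p)) := by
    intro u
    have h1 : ((RingHom.snd (ZMod m) (ZMod p)).comp
        (ZMod.chineseRemainder hcop : ZMod (m * p) →+* ZMod m × ZMod p)) =
        ZMod.castHom (dvd_mul_left p m) (ZMod p) := Subsingleton.elim _ _
    have h2 := DFunLike.congr_fun h1 (u : ZMod (m * p))
    rw [← h2]
    rfl
  let E : (Fin n → (ZMod (m * p))ˣ) ≃ (Fin n → (ZMod m)ˣ) × (Fin n → (ZMod p)ˣ) :=
    (Equiv.arrowCongr (Equiv.refl _) e).trans (Equiv.arrowProdEquivProdArrow _ _ _)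
  have hE : ∀ u j, (((E u).2 j : (ZMod p)ˣ) : ZMod p) = redp m p u j := fun u j => he (u j)
  have hcard : (univ.filter (fun u : Fin n → (ZMod (m * p))ˣ =>
      MvPolynomial.aeval (redp m p u) P = 0)).card =
      Fintype.card (Fin n → (ZMod m)ˣ) * (univ.filter (fun x : Fin n → (ZMod p)ˣ =>
      MvPolynomial.eval (fun j => (x j : ZMod p))
        (MvPolynomial.map (Int.castRingHom (ZMod p)) P) = 0)).card := by
    rw [← Finset.card_univ, ← Finset.card_product]
    refine Finset.card_bij' (fun u _ => E u) (fun x _ => E.symm x) ?_ ?_ ?_ ?_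
    · intro u hu
      rw [Finset.mem_filter] at hu
      rw [Finset.mem_product, Finset.mem_filter]
      refine ⟨mem_univ _, mem_univ _, ?_⟩
      rw [MvPolynomial.eval_map, ← hu.2, MvPolynomial.aeval_def]
      congr 1
      funext j
      exact hE u j
    · intro x hx
      rw [Finset.mem_product, Finset.mem_filter] at hx
      rw [Finset.mem_filter]
      refine ⟨mem_univ _, ?_⟩
      rw [← hx.2.2, MvPolynomial.eval_map, MvPolynomial.aeval_def]
      congr 1
      funext j
      rw [← hE, Equiv.apply_symm_apply]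
    · intro u _
      exact E.symm_apply_apply u
    · intro x _
      exact E.apply_symm_apply x
  have htot : Fintype.card (Fin n → (ZMod (m * p))ˣ) =
      Fintype.card (Fin n → (ZMod m)ˣ) * (p - 1) ^ n := by
    rw [Fintype.card_congr E, Fintype.card_prod]
    congr 1
    rw [Fintype.card_fun, ZMod.card_units, Fintype.card_fin]
  have hdeg : (MvPolynomial.map (Int.castRingHom (ZMod p)) P).totalDegree ≤ P.totalDegree :=
    Finset.sup_mono (MvPolynomial.support_map_subset _ _)
  rw [hcard, htot, mul_assoc]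
  calc Fintype.card (Fin n → (ZMod m)ˣ) * (_ * (p - 1)) ≤
      Fintype.card (Fin n → (ZMod m)ˣ) *
        ((MvPolynomial.map (Int.castRingHom (ZMod p)) P).totalDegree * (p - 1) ^ n) :=
        Nat.mul_le_mul_left _ (zeros_card p _ hP)
    _ ≤ Fintype.card (Fin n → (ZMod m)ˣ) * (P.totalDegree * (p - 1) ^ n) :=
        Nat.mul_le_mul_left _ (Nat.mul_le_mul_right _ hdeg)
    _ = _ := by ring

/-- Bad tuples: those with an isospectral mate that is not isometric. -/
def Bad {q : ℕ} (u : Fin n → (ZMod q)ˣ) : Prop :=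
  ∃ v : Fin n → (ZMod q)ˣ, (∀ t, latN q (fun j => (u j : ZMod q)) t =
    latN q (fun j => (v j : ZMod q)) t) ∧ ¬ IsoU u v

open Classical in
/-- The proportion of bad tuples tends to zero with the exact prime factor `p`. -/
theorem bad_small (hn : 0 < n) (δ : ℝ) (hδ : 0 < δ) : ∃ P0 : ℕ, ∀ p m : ℕ, P0 ≤ p → p.Prime →
    ¬ p ∣ m → 0 < m → ∀ _ : NeZero (m * p),
    ((univ.filter (fun u : Fin n → (ZMod (m * p))ˣ => Bad u)).card : ℝ) ≤
      δ * (Fintype.card (Fin n → (ZMod (m * p))ˣ) : ℝ) := by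
  by_contra hcon
  push Not at hcon
  -- index set
  let ι := Finset {P : MvPolynomial (Fin n) ℤ // P ≠ 0} × ℕ
  have hex : ∀ i : ι, ∃ p m : ℕ, i.2 < p ∧ p.Prime ∧ ¬ p ∣ m ∧ 0 < m ∧
      ∃ u v : Fin n → (ZMod (m * p))ˣ, (∀ t, latN (m * p) (fun j => (u j : ZMod (m * p))) t =
        latN (m * p) (fun j => (v j : ZMod (m * p))) t) ∧ ¬ IsoU u v ∧
        ∀ P ∈ i.1, MvPolynomial.aeval (redp m p u) P.1 ≠ 0 := by
    rintro ⟨F, N⟩
    let Q : MvPolynomial (Fin n) ℤ := ∏ P ∈ F, P.1
    have hQ : Q ≠ 0 := Finset.prod_ne_zero_iff.mpr fun P _ => P.2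
    obtain ⟨N1, hN1⟩ := map_ne_zero_of_large Q hQ
    obtain ⟨N2, hN2⟩ := exists_nat_gt ((Q.totalDegree : ℝ) / δ)
    obtain ⟨p, m, hp0, hpr, hpm, hm, hne, hlt⟩ := hcon (N + N1 + N2 + 2)
    have hfact : Fact p.Prime := ⟨hpr⟩
    have h1 := zeros_card_lift (n := n) p m hpm hm Q (hN1 p (by omega))
    refine ⟨p, m, by change N < p; omega, hpr, hpm, hm, ?_⟩
    -- existence of a bad tuple outside the zero set
    have h2 : ∃ u : Fin n → (ZMod (m * p))ˣ, Bad u ∧ MvPolynomial.aeval (redp m p u) Q ≠ 0 := by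
      by_contra hno
      push Not at hno
      have hsub : (univ.filter (fun u : Fin n → (ZMod (m * p))ˣ => Bad u)).card ≤
          (univ.filter (fun u : Fin n → (ZMod (m * p))ˣ =>
            MvPolynomial.aeval (redp m p u) Q = 0)).card := by
        apply Finset.card_le_card
        intro u hu
        rw [Finset.mem_filter] at hu ⊢
        exact ⟨mem_univ _, hno u hu.2⟩
      have h3 : ((univ.filter (fun u : Fin n → (ZMod (m * p))ˣ => Bad u)).card : ℝ) *
          ((p : ℝ) - 1) ≤ Q.totalDegree * (Fintype.card (Fin n → (ZMod (m * p))ˣ) : ℝ) := by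
        have h4 := (Nat.mul_le_mul_right (p - 1) hsub).trans h1
        have h5 : (((univ.filter (fun u : Fin n → (ZMod (m * p))ˣ => Bad u)).card *
          (p - 1) : ℕ) : ℝ) ≤ ((Q.totalDegree * Fintype.card (Fin n → (ZMod (m * p))ˣ) : ℕ) : ℝ) :=
          Nat.cast_le.mpr h4
        rw [Nat.cast_mul, Nat.cast_mul, Nat.cast_sub hpr.one_lt.le, Nat.cast_one] at h5
        exact h5
      have hcardpos : (0 : ℝ) < (Fintype.card (Fin n → (ZMod (m * p))ˣ) : ℝ) := by
        exact_mod_cast Fintype.card_pos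
      have hp1 : ((Q.totalDegree : ℝ) / δ) < (p : ℝ) - 1 := by
        have : ((N + N1 + N2 + 2 : ℕ) : ℝ) ≤ p := Nat.cast_le.mpr hp0
        push_cast at this
        have h6 : (0 : ℝ) ≤ N := Nat.cast_nonneg _
        have h7 : (0 : ℝ) ≤ N1 := Nat.cast_nonneg _
        linarith
      rw [div_lt_iff₀ hδ] at hp1
      have hp2 : (0 : ℝ) < (p : ℝ) - 1 := by
        have : (2 : ℝ) ≤ p := by exact_mod_cast hpr.two_le
        linarith
      have h8 : δ * (Fintype.card (Fin n → (ZMod (m * p))ˣ) : ℝ) * ((p : ℝ) - 1) <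
          ((univ.filter (fun u : Fin n → (ZMod (m * p))ˣ => Bad u)).card : ℝ) * ((p : ℝ) - 1) :=
        mul_lt_mul_of_pos_right hlt hp2
      have h9 : (Q.totalDegree : ℝ) * (Fintype.card (Fin n → (ZMod (m * p))ˣ) : ℝ) <
          ((p : ℝ) - 1) * δ * (Fintype.card (Fin n → (ZMod (m * p))ˣ) : ℝ) :=
        mul_lt_mul_of_pos_right hp1 hcardpos
      nlinarith
    obtain ⟨u, ⟨v, hv1, hv2⟩, hu⟩ := h2
    refine ⟨u, v, hv1, hv2, fun P hP h0 => hu ?_⟩
    simp only [Q]
    rw [map_prod]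
    exact Finset.prod_eq_zero hP h0
  choose p m hp hpr hpm hm u v huv hiso hgen using hex
  have hfact : ∀ i, Fact (p i).Prime := fun i => ⟨hpr i⟩
  let U : Ultrafilter ι := Ultrafilter.of Filter.atTop
  have hU : (U : Filter ι) ≤ Filter.atTop := Ultrafilter.of_le _
  have hev := core U hn p m hpm hm
    (fun N => hU (by
      have : ∀ᶠ i : ι in Filter.atTop, ((∅, N) : ι) ≤ i := Filter.eventually_ge_atTop _
      filter_upwards [this] with i hi
      exact lt_of_le_of_lt hi.2 (hp i)))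
    u v
    (fun P hP => hU (by
      have : ∀ᶠ i : ι in Filter.atTop, (({⟨P, hP⟩}, 0) : ι) ≤ i := Filter.eventually_ge_atTop _
      filter_upwards [this] with i hi
      exact hgen i ⟨P, hP⟩ (hi.1 (Finset.mem_singleton_self _)))) huv
  obtain ⟨i, hi⟩ := hev.exists
  exact hiso i hi

end Pool.Agent.Hhelper63.Lens
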