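import Mathlib

set_option autoImplicit false

namespace Pool.Agent.Hhelper63.Lens

open Finset

/-- Exceptional moduli: every prime factor `p ≥ P` occurs at least twice. -/
noncomputable def Exc (P x : ℕ) : Finset ℕ :=
  open Classical in
  (Icc 1 x).filter (fun q => ∀ p : ℕ, p.Prime → P ≤ p → p ∣ q → p ^ 2 ∣ q)

theorem exc_card_le (P x : ℕ) (hP : 2 ≤ P) :
    ((Exc P x).card : ℝ) ≤ 2 ^ (Nat.primesBelow P).card * Nat.sqrt x + x * ((P : ℝ) - 1)⁻¹ := by
  classical
  have hsub : Exc P x ⊆ Nat.smoothNumbersUpTo x P ∪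
      (Ioc (P - 1) x).biUnion (fun d => (Ioc 0 x).filter (fun q => d ^ 2 ∣ q)) := by
    intro q hq
    unfold Exc at hq
    rw [Finset.mem_filter, Finset.mem_Icc] at hq
    rw [Finset.mem_union]
    by_cases hs : ∀ p : ℕ, p.Prime → p ∣ q → p < P
    · left
      rw [Nat.mem_smoothNumbersUpTo, Nat.mem_smoothNumbers']
      exact ⟨hq.1.2, hs⟩
    · right
      push Not at hs
      obtain ⟨p, hp, hpq, hPp⟩ := hs
      rw [Finset.mem_biUnion]
      refine ⟨p, ?_, ?_⟩
      · rw [Finset.mem_Ioc]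
        exact ⟨by omega, (Nat.le_of_dvd hq.1.1 hpq).trans hq.1.2⟩
      · rw [Finset.mem_filter, Finset.mem_Ioc]
        exact ⟨⟨hq.1.1, hq.1.2⟩, hq.2 p hp hPp hpq⟩
  have h1 : ((Exc P x).card : ℝ) ≤ (Nat.smoothNumbersUpTo x P).card +
      ∑ d ∈ Ioc (P - 1) x, (x : ℝ) * ((d : ℝ) ^ 2)⁻¹ := by
    have h2 : (Exc P x).card ≤ (Nat.smoothNumbersUpTo x P).card +
        ∑ d ∈ Ioc (P - 1) x, x / d ^ 2 := by
      refine (Finset.card_le_card hsub).trans ((Finset.card_union_le _ _).trans ?_)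
      refine Nat.add_le_add_left (Finset.card_biUnion_le.trans ?_) _
      refine Finset.sum_le_sum fun d _ => ?_
      rw [Nat.Ioc_filter_dvd_card_eq_div]
    calc ((Exc P x).card : ℝ) ≤ (((Nat.smoothNumbersUpTo x P).card +
        ∑ d ∈ Ioc (P - 1) x, x / d ^ 2 : ℕ) : ℝ) := Nat.cast_le.mpr h2
      _ = (Nat.smoothNumbersUpTo x P).card + ∑ d ∈ Ioc (P - 1) x, ((x / d ^ 2 : ℕ) : ℝ) := by
        push_cast
        rfl
      _ ≤ _ := by
        refine add_le_add le_rfl (Finset.sum_le_sum fun d _ => ?_)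
        refine Nat.cast_div_le.trans ?_
        push_cast
        rw [div_eq_mul_inv]
  refine h1.trans (add_le_add ?_ ?_)
  · have := Nat.smoothNumbersUpTo_card_le x P
    exact_mod_cast this
  · rw [← Finset.mul_sum]
    refine mul_le_mul_of_nonneg_left ?_ (Nat.cast_nonneg x)
    rcases le_or_gt (P - 1) x with h | h
    · have h3 := sum_Ioc_inv_sq_le_sub (α := ℝ) (k := P - 1) (n := x) (by omega) h
      have h4 : (((P - 1 : ℕ) : ℝ)) = (P : ℝ) - 1 := by
        rw [Nat.cast_sub (by omega), Nat.cast_one]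
      rw [h4] at h3
      have h5 : (0 : ℝ) ≤ (x : ℝ)⁻¹ := by positivity
      linarith
    · rw [Finset.Ioc_eq_empty (by omega), Finset.sum_empty]
      have : (1 : ℝ) ≤ P := by exact_mod_cast (by omega : 1 ≤ P)
      exact inv_nonneg.mpr (by linarith)

theorem sum_totient_ge (x : ℕ) : (x : ℝ) ^ 2 / 8 ≤ ∑ q ∈ Icc 1 x, (Nat.totient q : ℝ) := by
  classical
  -- pairs
  let S : Finset (ℕ × ℕ) := Ioc 0 x ×ˢ Ioc 0 x
  have hS : S.card = x ^ 2 := by
    simp only [S, Finset.card_product, Nat.card_Ioc, Nat.sub_zero]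
    ring
  have hnc : ((S.filter (fun p => ¬ Nat.Coprime p.1 p.2)).card : ℝ) ≤ 3 / 4 * (x : ℝ) ^ 2 := by
    have hsub : S.filter (fun p => ¬ Nat.Coprime p.1 p.2) ⊆
        (Ioc 1 x).biUnion (fun d => ((Ioc 0 x).filter (fun q => d ∣ q)) ×ˢ
          ((Ioc 0 x).filter (fun q => d ∣ q))) := by
      rintro ⟨a, b⟩ hab
      simp only [S, Finset.mem_filter, Finset.mem_product, Finset.mem_Ioc] at hab
      obtain ⟨⟨⟨ha0, hax⟩, hb0, hbx⟩, hnc⟩ := hab
      rw [Finset.mem_biUnion]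
      refine ⟨Nat.gcd a b, ?_, ?_⟩
      · rw [Finset.mem_Ioc]
        constructor
        · have h1 : 0 < Nat.gcd a b := Nat.gcd_pos_of_pos_left _ ha0
          have h2 : Nat.gcd a b ≠ 1 := hnc
          omega
        · exact (Nat.le_of_dvd ha0 (Nat.gcd_dvd_left a b)).trans hax
      · simp only [Finset.mem_product, Finset.mem_filter, Finset.mem_Ioc]
        exact ⟨⟨⟨ha0, hax⟩, Nat.gcd_dvd_left a b⟩, ⟨hb0, hbx⟩, Nat.gcd_dvd_right a b⟩
    have h1 : (S.filter (fun p => ¬ Nat.Coprime p.1 p.2)).card ≤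
        ∑ d ∈ Ioc 1 x, (x / d) * (x / d) := by
      refine (Finset.card_le_card hsub).trans (Finset.card_biUnion_le.trans ?_)
      refine Finset.sum_le_sum fun d _ => ?_
      rw [Finset.card_product, Nat.Ioc_filter_dvd_card_eq_div]
    have h2 : ((S.filter (fun p => ¬ Nat.Coprime p.1 p.2)).card : ℝ) ≤
        ∑ d ∈ Ioc 1 x, (x : ℝ) ^ 2 * ((d : ℝ) ^ 2)⁻¹ := by
      calc ((S.filter (fun p => ¬ Nat.Coprime p.1 p.2)).card : ℝ) ≤
          ((∑ d ∈ Ioc 1 x, (x / d) * (x / d) : ℕ) : ℝ) := Nat.cast_le.mpr h1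
        _ = ∑ d ∈ Ioc 1 x, ((x / d : ℕ) : ℝ) * ((x / d : ℕ) : ℝ) := by push_cast; rfl
        _ ≤ _ := by
          refine Finset.sum_le_sum fun d _ => ?_
          have h3 : ((x / d : ℕ) : ℝ) ≤ (x : ℝ) / d := Nat.cast_div_le
          have h4 : (0 : ℝ) ≤ ((x / d : ℕ) : ℝ) := Nat.cast_nonneg _
          calc ((x / d : ℕ) : ℝ) * ((x / d : ℕ) : ℝ) ≤ ((x : ℝ) / d) * ((x : ℝ) / d) :=
                mul_le_mul h3 h3 h4 (by positivity)
            _ = _ := by rw [div_eq_mul_inv, ← inv_pow]; ring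
    rw [← Finset.mul_sum] at h2
    have h5 : ∑ d ∈ Ioc 1 x, ((d : ℝ) ^ 2)⁻¹ ≤ 3 / 4 := by
      rcases Nat.lt_or_ge x 2 with hx | hx
      · rw [Finset.Ioc_eq_empty (by omega), Finset.sum_empty]
        norm_num
      · have h6 : Ioc 1 x = insert 2 (Ioc 2 x) := by
          ext a
          simp only [Finset.mem_Ioc, Finset.mem_insert]
          omega
        rw [h6, Finset.sum_insert (by simp)]
        have h7 := sum_Ioc_inv_sq_le_sub (α := ℝ) (k := 2) (n := x) (by norm_num) hx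
        have h8 : (0 : ℝ) ≤ (x : ℝ)⁻¹ := by positivity
        push_cast at h7 ⊢
        norm_num at h7 ⊢
        linarith
    calc _ ≤ (x : ℝ) ^ 2 * ∑ d ∈ Ioc 1 x, ((d : ℝ) ^ 2)⁻¹ := h2
      _ ≤ (x : ℝ) ^ 2 * (3 / 4) := mul_le_mul_of_nonneg_left h5 (by positivity)
      _ = _ := by ring
  have hc : (x : ℝ) ^ 2 / 4 ≤ ((S.filter (fun p => Nat.Coprime p.1 p.2)).card : ℝ) := by
    have h1 := Finset.card_filter_add_card_filter_not (s := S) (fun p => Nat.Coprime p.1 p.2)
    have h2 : ((S.filter (fun p => Nat.Coprime p.1 p.2)).card : ℝ) +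
        ((S.filter (fun p => ¬ Nat.Coprime p.1 p.2)).card : ℝ) = (x : ℝ) ^ 2 := by
      rw [← Nat.cast_add, h1, hS]
      push_cast
      ring
    linarith
  -- upper bound by totients
  have hub : (S.filter (fun p => Nat.Coprime p.1 p.2)).card ≤
      2 * ∑ q ∈ Icc 1 x, Nat.totient q := by
    have h1 : ∀ q, ((Icc 1 q).filter (fun a => Nat.Coprime q a)).card = Nat.totient q := by
      intro q
      rw [← Nat.filter_coprime_Ico_eq_totient q 1]
      congr 2
      ext a
      simp only [Finset.mem_Icc, Finset.mem_Ico]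
      omega
    have hsub : S.filter (fun p => Nat.Coprime p.1 p.2) ⊆
        ((Icc 1 x).biUnion (fun q => ((Icc 1 q).filter (fun a => Nat.Coprime q a)).image
          (fun a => (a, q)))) ∪
        ((Icc 1 x).biUnion (fun q => ((Icc 1 q).filter (fun a => Nat.Coprime q a)).image
          (fun a => (q, a)))) := by
      rintro ⟨a, b⟩ hab
      simp only [S, Finset.mem_filter, Finset.mem_product, Finset.mem_Ioc] at hab
      obtain ⟨⟨⟨ha0, hax⟩, hb0, hbx⟩, hc⟩ := hab
      rw [Finset.mem_union]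
      rcases le_total a b with h | h
      · left
        rw [Finset.mem_biUnion]
        refine ⟨b, Finset.mem_Icc.mpr ⟨hb0, hbx⟩, ?_⟩
        rw [Finset.mem_image]
        exact ⟨a, Finset.mem_filter.mpr ⟨Finset.mem_Icc.mpr ⟨ha0, h⟩, hc.symm⟩, rfl⟩
      · right
        rw [Finset.mem_biUnion]
        refine ⟨a, Finset.mem_Icc.mpr ⟨ha0, hax⟩, ?_⟩
        rw [Finset.mem_image]
        exact ⟨b, Finset.mem_filter.mpr ⟨Finset.mem_Icc.mpr ⟨hb0, h⟩, hc⟩, rfl⟩
    refine (Finset.card_le_card hsub).trans ((Finset.card_union_le _ _).trans ?_)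
    rw [two_mul]
    refine Nat.add_le_add (Finset.card_biUnion_le.trans ?_) (Finset.card_biUnion_le.trans ?_)
    · exact Finset.sum_le_sum fun q _ => Finset.card_image_le.trans (h1 q).le
    · exact Finset.sum_le_sum fun q _ => Finset.card_image_le.trans (h1 q).le
  have hub' : ((S.filter (fun p => Nat.Coprime p.1 p.2)).card : ℝ) ≤
      2 * ∑ q ∈ Icc 1 x, (Nat.totient q : ℝ) := by exact_mod_cast hub
  linarith

/-- Many moduli have large totient. -/
theorem card_totient_large (x : ℕ) (hx : 1 ≤ x) :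
    (x : ℝ) / 16 ≤ (((Icc 1 x).filter (fun q => (x : ℝ) / 16 ≤ Nat.totient q)).card : ℝ) := by
  classical
  have h1 := sum_totient_ge x
  have h2 : ∑ q ∈ Icc 1 x, (Nat.totient q : ℝ) ≤
      (((Icc 1 x).filter (fun q => (x : ℝ) / 16 ≤ Nat.totient q)).card : ℝ) * x +
        (x : ℝ) * (x / 16) := by
    rw [← Finset.sum_filter_add_sum_filter_not (Icc 1 x)
      (fun q => (x : ℝ) / 16 ≤ Nat.totient q)]
    refine add_le_add ?_ ?_
    · rw [← nsmul_eq_mul]
      refine Finset.sum_le_card_nsmul _ _ _ fun q hq => ?_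
      rw [Finset.mem_filter, Finset.mem_Icc] at hq
      exact Nat.cast_le.mpr ((Nat.totient_le q).trans hq.1.2)
    · calc _ ≤ (((Icc 1 x).filter (fun q => ¬ (x : ℝ) / 16 ≤ Nat.totient q)).card : ℝ) *
            (x / 16) := by
            rw [← nsmul_eq_mul]
            refine Finset.sum_le_card_nsmul _ _ _ fun q hq => ?_
            rw [Finset.mem_filter] at hq
            exact (not_le.mp hq.2).le
        _ ≤ _ := by
            refine mul_le_mul_of_nonneg_right ?_ (by positivity)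
            have := Finset.card_filter_le (Icc 1 x) (fun q => ¬ (x : ℝ) / 16 ≤ Nat.totient q)
            rw [Nat.card_Icc, Nat.add_sub_cancel] at this
            exact_mod_cast this
  have hx0 : (0 : ℝ) < x := by exact_mod_cast hx
  have h3 : (x : ℝ) / 16 * x ≤
      (((Icc 1 x).filter (fun q => (x : ℝ) / 16 ≤ Nat.totient q)).card : ℝ) * x := by
    nlinarith
  exact le_of_mul_le_mul_right h3 hx0

end Pool.Agent.Hhelper63.Lens
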