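import Mathlib
import Pool.Agent.Hhelper63.Lens.NumTheory

set_option autoImplicit false

namespace Pool.Agent.Hhelper63.Lens

open Finset Filter Topology

theorem sum_T_ge (n : ℕ) (hn : 0 < n) (T : ℕ → ℕ)
    (hT2 : ∀ q, 1 ≤ q → (Nat.totient q) ^ (n - 1) ≤ (n.factorial * 2 ^ n) * T q) (x : ℕ)
    (hx : 1 ≤ x) :
    (1 / 16) ^ n / ((n.factorial : ℝ) * 2 ^ n) * (x : ℝ) ^ n ≤ ∑ q ∈ Icc 1 x, (T q : ℝ) := by
  classical
  have hK : (0 : ℝ) < (n.factorial : ℝ) * 2 ^ n := by positivity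
  have h1 := card_totient_large x hx
  have h2 : ∀ q ∈ (Icc 1 x).filter (fun q => (x : ℝ) / 16 ≤ Nat.totient q),
      ((x : ℝ) / 16) ^ (n - 1) / ((n.factorial : ℝ) * 2 ^ n) ≤ (T q : ℝ) := by
    intro q hq
    rw [Finset.mem_filter, Finset.mem_Icc] at hq
    rw [div_le_iff₀ hK]
    have h3 := hT2 q hq.1.1
    have h4 : ((Nat.totient q : ℝ)) ^ (n - 1) ≤ ((n.factorial : ℝ) * 2 ^ n) * T q := by
      exact_mod_cast h3
    have h5 : ((x : ℝ) / 16) ^ (n - 1) ≤ (Nat.totient q : ℝ) ^ (n - 1) :=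
      pow_le_pow_left₀ (by positivity) hq.2 _
    linarith
  calc (1 / 16) ^ n / ((n.factorial : ℝ) * 2 ^ n) * (x : ℝ) ^ n =
      ((x : ℝ) / 16) * (((x : ℝ) / 16) ^ (n - 1) / ((n.factorial : ℝ) * 2 ^ n)) := by
        have h6 : (1 / 16 : ℝ) ^ n * (x : ℝ) ^ n = ((x : ℝ) / 16) ^ (n - 1) * ((x : ℝ) / 16) := by
          rw [← mul_pow, ← pow_succ, Nat.sub_add_cancel hn]
          congr 1
          ring
        rw [div_mul_eq_mul_div, h6]
        ring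
    _ ≤ (((Icc 1 x).filter (fun q => (x : ℝ) / 16 ≤ Nat.totient q)).card : ℝ) *
        (((x : ℝ) / 16) ^ (n - 1) / ((n.factorial : ℝ) * 2 ^ n)) :=
        mul_le_mul_of_nonneg_right h1 (by positivity)
    _ ≤ ∑ q ∈ (Icc 1 x).filter (fun q => (x : ℝ) / 16 ≤ Nat.totient q), (T q : ℝ) := by
        rw [← nsmul_eq_mul]
        exact Finset.card_nsmul_le_sum _ _ _ h2
    _ ≤ _ := Finset.sum_le_sum_of_subset_of_nonneg (Finset.filter_subset _ _)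
        (fun q _ _ => Nat.cast_nonneg _)

theorem final_limit (n : ℕ) (hn : 0 < n) (T G B : ℕ → ℕ)
    (hGT : ∀ q, G q ≤ T q)
    (hTGB : ∀ q, 1 ≤ q → T q ≤ G q + B q)
    (hBT : ∀ q, 1 ≤ q → B q ≤ T q)
    (hT1 : ∀ q, 1 ≤ q → T q ≤ q ^ (n - 1))
    (hT2 : ∀ q, 1 ≤ q → (Nat.totient q) ^ (n - 1) ≤ (n.factorial * 2 ^ n) * T q)
    (hB : ∀ δ : ℝ, 0 < δ → ∃ P0 : ℕ, ∀ p m : ℕ, P0 ≤ p → p.Prime → ¬ p ∣ m → 0 < m →
      (B (m * p) : ℝ) ≤ δ * T (m * p)) :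
    Tendsto (fun x : ℕ => (∑ q ∈ Icc 1 x, (G q : ℝ)) / (∑ q ∈ Icc 1 x, (T q : ℝ)))
      atTop (𝓝 1) := by
  classical
  set c : ℝ := (1 / 16) ^ n / ((n.factorial : ℝ) * 2 ^ n) with hc
  have hcpos : 0 < c := by positivity
  rw [Metric.tendsto_atTop]
  intro ε' hε'
  -- work with ε ≤ ε'/2
  obtain ⟨ε, hε, hεε'⟩ : ∃ ε : ℝ, 0 < ε ∧ ε < ε' := ⟨ε' / 2, by linarith, by linarith⟩
  obtain ⟨P0, hP0⟩ := hB (ε / 2) (by positivity)
  obtain ⟨N2, hN2⟩ := exists_nat_gt (4 / (ε * c))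
  set P1 : ℕ := P0 + N2 + 2 with hP1
  set C : ℝ := 2 ^ (Nat.primesBelow P1).card with hC
  have hCpos : 0 < C := by positivity
  obtain ⟨x0, hx0⟩ := exists_nat_gt ((4 * C / (ε * c)) ^ 2)
  refine ⟨x0 + 1, fun x hx => ?_⟩
  have hx1 : 1 ≤ x := by omega
  have hxpos : (0 : ℝ) < x := by exact_mod_cast hx1
  have hTsum := sum_T_ge n hn T hT2 x hx1
  rw [← hc] at hTsum
  have hTpos : 0 < ∑ q ∈ Icc 1 x, (T q : ℝ) := lt_of_lt_of_le (by positivity) hTsum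
  -- bound for the exceptional set
  have hexc : ((Exc P1 x).card : ℝ) ≤ ε * c / 2 * x := by
    have h1 := exc_card_le P1 x (by omega)
    rw [← hC] at h1
    have h2 : C * (Nat.sqrt x : ℝ) ≤ ε * c / 4 * x := by
      have h3 : (Nat.sqrt x : ℝ) ≤ Real.sqrt x := Real.nat_sqrt_le_real_sqrt
      have h4 : 4 * C / (ε * c) ≤ Real.sqrt x := by
        apply Real.le_sqrt_of_sq_le
        have : (x0 : ℝ) ≤ x := by exact_mod_cast (by omega : x0 ≤ x)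
        linarith
      have h5 : Real.sqrt x * Real.sqrt x = x := Real.mul_self_sqrt hxpos.le
      rw [div_le_iff₀ (by positivity)] at h4
      calc C * (Nat.sqrt x : ℝ) ≤ C * Real.sqrt x := mul_le_mul_of_nonneg_left h3 hCpos.le
        _ ≤ (Real.sqrt x * (ε * c) / 4) * Real.sqrt x :=
            mul_le_mul_of_nonneg_right (by linarith) (Real.sqrt_nonneg _)
        _ = ε * c / 4 * (Real.sqrt x * Real.sqrt x) := by ring
        _ = _ := by rw [h5]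
    have h6 : (x : ℝ) * ((P1 : ℝ) - 1)⁻¹ ≤ ε * c / 4 * x := by
      have h7 : 4 / (ε * c) ≤ (P1 : ℝ) - 1 := by
        rw [hP1]
        push_cast
        have : (0 : ℝ) ≤ P0 := Nat.cast_nonneg _
        linarith
      have h8 : ((P1 : ℝ) - 1)⁻¹ ≤ (4 / (ε * c))⁻¹ := inv_anti₀ (by positivity) h7
      rw [inv_div] at h8
      calc (x : ℝ) * ((P1 : ℝ) - 1)⁻¹ ≤ x * (ε * c / 4) := mul_le_mul_of_nonneg_left h8 hxpos.le
        _ = _ := by ring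
    linarith
  have hBsum : ∑ q ∈ Icc 1 x, (B q : ℝ) ≤ ε * ∑ q ∈ Icc 1 x, (T q : ℝ) := by
    rw [← Finset.sum_filter_add_sum_filter_not (Icc 1 x)
      (fun q => ∀ p : ℕ, p.Prime → P1 ≤ p → p ∣ q → p ^ 2 ∣ q)]
    have h1 : ∑ q ∈ (Icc 1 x).filter (fun q => ∀ p : ℕ, p.Prime → P1 ≤ p → p ∣ q → p ^ 2 ∣ q),
        (B q : ℝ) ≤ ε / 2 * ∑ q ∈ Icc 1 x, (T q : ℝ) := by
      have h2 : ∑ q ∈ (Icc 1 x).filter (fun q => ∀ p : ℕ, p.Prime → P1 ≤ p → p ∣ q → p ^ 2 ∣ q),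
          (B q : ℝ) ≤ ((Exc P1 x).card : ℝ) * (x : ℝ) ^ (n - 1) := by
        rw [← nsmul_eq_mul]
        have : Exc P1 x =
          (Icc 1 x).filter (fun q => ∀ p : ℕ, p.Prime → P1 ≤ p → p ∣ q → p ^ 2 ∣ q) := by
          unfold Exc
          congr 1
        rw [this]
        refine Finset.sum_le_card_nsmul _ _ _ fun q hq => ?_
        rw [Finset.mem_filter, Finset.mem_Icc] at hq
        have h3 := (hBT q hq.1.1).trans (hT1 q hq.1.1)
        have h4 : q ^ (n - 1) ≤ x ^ (n - 1) := Nat.pow_le_pow_left hq.1.2 _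
        exact_mod_cast h3.trans h4
      have h5 : ((Exc P1 x).card : ℝ) * (x : ℝ) ^ (n - 1) ≤ ε * c / 2 * (x : ℝ) ^ n := by
        calc _ ≤ (ε * c / 2 * x) * (x : ℝ) ^ (n - 1) :=
              mul_le_mul_of_nonneg_right hexc (by positivity)
          _ = ε * c / 2 * ((x : ℝ) ^ (n - 1) * x) := by ring
          _ = _ := by rw [← pow_succ, Nat.sub_add_cancel hn]
      calc _ ≤ _ := h2
        _ ≤ _ := h5
        _ = ε / 2 * (c * (x : ℝ) ^ n) := by ring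
        _ ≤ _ := mul_le_mul_of_nonneg_left hTsum (by positivity)
    have h6 : ∑ q ∈ (Icc 1 x).filter
        (fun q => ¬ ∀ p : ℕ, p.Prime → P1 ≤ p → p ∣ q → p ^ 2 ∣ q),
        (B q : ℝ) ≤ ε / 2 * ∑ q ∈ Icc 1 x, (T q : ℝ) := by
      rw [Finset.mul_sum]
      refine (Finset.sum_le_sum (g := fun q => ε / 2 * (T q : ℝ)) fun q hq => ?_).trans
        (Finset.sum_le_sum_of_subset_of_nonneg (Finset.filter_subset _ _)
          (fun q _ _ => by positivity))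
      rw [Finset.mem_filter, Finset.mem_Icc] at hq
      obtain ⟨⟨hq1, hqx⟩, hq2⟩ := hq
      push Not at hq2
      obtain ⟨p, hp, hPp, ⟨m, hm⟩, hp2⟩ := hq2
      have hq' : q = m * p := by rw [hm]; ring
      subst hq'
      refine hP0 p m (by omega) hp ?_ ?_
      · rintro ⟨k, rfl⟩
        exact hp2 ⟨k, by ring⟩
      · rcases Nat.eq_zero_or_pos m with h | h
        · subst h
          simp at hq1
        · exact h
    linarith
  have hGsum : ∑ q ∈ Icc 1 x, (G q : ℝ) ≤ ∑ q ∈ Icc 1 x, (T q : ℝ) :=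
    Finset.sum_le_sum fun q _ => Nat.cast_le.mpr (hGT q)
  have hTG : ∑ q ∈ Icc 1 x, (T q : ℝ) ≤ ∑ q ∈ Icc 1 x, (G q : ℝ) + ∑ q ∈ Icc 1 x, (B q : ℝ) := by
    rw [← Finset.sum_add_distrib]
    refine Finset.sum_le_sum fun q hq => ?_
    rw [Finset.mem_Icc] at hq
    exact_mod_cast hTGB q hq.1
  rw [Real.dist_eq, abs_lt]
  constructor
  · have h1 : 1 - ε ≤ (∑ q ∈ Icc 1 x, (G q : ℝ)) / (∑ q ∈ Icc 1 x, (T q : ℝ)) := by
      rw [le_div_iff₀ hTpos]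
      linarith
    linarith
  · have h1 : (∑ q ∈ Icc 1 x, (G q : ℝ)) / (∑ q ∈ Icc 1 x, (T q : ℝ)) ≤ 1 := by
      rw [div_le_one hTpos]
      exact hGsum
    linarith

end Pool.Agent.Hhelper63.Lens
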