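import Mathlib
import Pool.Agent.Hhelper63.Lens.Count

set_option autoImplicit false

namespace Pool.Agent.Hhelper63.Lens

open Finset

variable {n : ℕ} {q : ℕ}

theorem isoU_refl (u : Fin n → (ZMod q)ˣ) : IsoU u u :=
  ⟨1, fun _ => 1, 1, fun j => by simp⟩

theorem unit_sq_cast (e : ℤˣ) : ((e : ℤ) : ZMod q) * ((e : ℤ) : ZMod q) = 1 := by
  rcases Int.units_eq_one_or e with h | h <;> rw [h] <;> simp

theorem isoU_symm {u v : Fin n → (ZMod q)ˣ} (h : IsoU u v) : IsoU v u := by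
  obtain ⟨σ, ε, t, h⟩ := h
  refine ⟨σ.symm, fun j => ε (σ.symm j), t⁻¹, fun j => ?_⟩
  have h1 := h (σ.symm j)
  rw [Equiv.apply_symm_apply] at h1
  rw [h1]
  have h2 := unit_sq_cast (q := q) (ε (σ.symm j))
  have h3 : ((t⁻¹ : (ZMod q)ˣ) : ZMod q) * t = 1 := Units.inv_mul t
  calc (u j : ZMod q) = (((ε (σ.symm j) : ℤ) : ZMod q) * ((ε (σ.symm j) : ℤ) : ZMod q)) *
        (((t⁻¹ : (ZMod q)ˣ) : ZMod q) * t) * u j := by rw [h2, h3]; ring
    _ = _ := by ring

theorem isoU_trans {u v w : Fin n → (ZMod q)ˣ} (h : IsoU u v) (h' : IsoU v w) : IsoU u w := by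
  obtain ⟨σ, ε, t, h⟩ := h
  obtain ⟨σ', ε', t', h'⟩ := h'
  refine ⟨σ'.trans σ, fun j => ε' j * ε (σ' j), t' * t, fun j => ?_⟩
  rw [h' j, h (σ' j), Equiv.trans_apply]
  push_cast
  ring

theorem isoU_smul (u : Fin n → (ZMod q)ˣ) (t : (ZMod q)ˣ) : IsoU u (fun j => t * u j) :=
  ⟨1, fun _ => 1, t, fun j => by simp⟩

theorem latN_smul (u : Fin n → (ZMod q)ˣ) (t : (ZMod q)ˣ) (k : ℕ) :
    latN q (fun j => ((t * u j : (ZMod q)ˣ) : ZMod q)) k = latN q (fun j => (u j : ZMod q)) k := by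
  unfold latN
  congr 1
  refine Finset.filter_congr fun a _ => ?_
  refine and_congr_right fun _ => ?_
  have h1 : ∑ j, (a j : ZMod q) * ((t * u j : (ZMod q)ˣ) : ZMod q) =
      t * ∑ j, (a j : ZMod q) * (u j : ZMod q) := by
    rw [Finset.mul_sum]
    refine Finset.sum_congr rfl fun j _ => ?_
    push_cast
    ring
  rw [h1]
  exact Units.mul_right_eq_zero t

theorem bad_smul {u : Fin n → (ZMod q)ˣ} (h : Bad u) (t : (ZMod q)ˣ) :
    Bad (fun j => t * u j) := by
  obtain ⟨v, h1, h2⟩ := h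
  refine ⟨v, fun k => ?_, fun h3 => h2 (isoU_trans (isoU_smul u t) h3)⟩
  rw [← h1 k]
  exact latN_smul u t k

open Classical in
/-- The class of a tuple. -/
noncomputable def clU [NeZero q] (u : Fin n → (ZMod q)ˣ) : Finset (Fin n → (ZMod q)ˣ) :=
  univ.filter (fun v => IsoU u v)

open Classical in
theorem clU_eq_iff [NeZero q] (u v : Fin n → (ZMod q)ˣ) : clU u = clU v ↔ IsoU u v := by
  constructor
  · intro h
    have : v ∈ clU v := by
      unfold clU
      rw [Finset.mem_filter]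
      exact ⟨mem_univ _, isoU_refl v⟩
    rw [← h] at this
    unfold clU at this
    rw [Finset.mem_filter] at this
    exact this.2
  · intro h
    unfold clU
    ext w
    rw [Finset.mem_filter, Finset.mem_filter]
    exact ⟨fun h1 => ⟨mem_univ _, isoU_trans (isoU_symm h) h1.2⟩,
      fun h1 => ⟨mem_univ _, isoU_trans h h1.2⟩⟩

open Classical in
theorem card_image_clU_mul_le [NeZero q] (hn : 0 < n) (A : Finset (Fin n → (ZMod q)ˣ))
    (hA : ∀ u ∈ A, ∀ t : (ZMod q)ˣ, (fun j => t * u j) ∈ A) :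
    Fintype.card (ZMod q)ˣ * (A.image clU).card ≤ A.card := by
  apply Finset.mul_card_image_le_card
  intro c hc
  obtain ⟨u0, hu0, rfl⟩ := Finset.mem_image.mp hc
  rw [← Finset.card_univ]
  apply Finset.card_le_card_of_injOn (fun (t : (ZMod q)ˣ) j => t * u0 j)
  · intro t _
    rw [Finset.mem_coe, Finset.mem_filter]
    exact ⟨hA u0 hu0 t, (clU_eq_iff _ _).mpr (isoU_symm (isoU_smul u0 t))⟩
  · intro t _ t' _ htt
    have := congrFun htt ⟨0, hn⟩
    exact mul_right_cancel this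

open Classical in
theorem card_le_mul_image_clU [NeZero q] :
    Fintype.card (Fin n → (ZMod q)ˣ) ≤ (n.factorial * 2 ^ n * Fintype.card (ZMod q)ˣ) *
      ((univ : Finset (Fin n → (ZMod q)ˣ)).image clU).card := by
  rw [← Finset.card_univ]
  apply Finset.card_le_mul_card_image
  intro c hc
  obtain ⟨u0, -, rfl⟩ := Finset.mem_image.mp hc
  have h1 : (univ.filter (fun x : Fin n → (ZMod q)ˣ => clU x = clU u0)) ⊆
      (univ : Finset (Equiv.Perm (Fin n) × (Fin n → ℤˣ) × (ZMod q)ˣ)).image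
        (fun x j => (Units.map (Int.castRingHom (ZMod q)).toMonoidHom (x.2.1 j)) * x.2.2 *
          u0 (x.1 j)) := by
    intro v hv
    rw [Finset.mem_filter, clU_eq_iff] at hv
    obtain ⟨σ, ε, t, h⟩ := isoU_symm hv.2
    rw [Finset.mem_image]
    refine ⟨(σ, ε, t), mem_univ _, ?_⟩
    funext j
    apply Units.ext
    rw [h j]
    push_cast
    rfl
  refine (Finset.card_le_card h1).trans (Finset.card_image_le.trans ?_)
  rw [Finset.card_univ, Fintype.card_prod, Fintype.card_prod, Fintype.card_perm, Fintype.card_fin,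
    Fintype.card_fun, Fintype.card_fin, ← mul_assoc]
  simp

end Pool.Agent.Hhelper63.Lens
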