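import Mathlib
import Pool.Agent.Hhelper63.Lens.Orbits
import Pool.Agent.Hhelper63.Lens.Limit

set_option autoImplicit false

namespace Pool.Agent.Hhelper63.Lens

open Finset

variable {n : ℕ}

/-- the tuple of units attached to a tuple of naturals -/
noncomputable def toU (q : ℕ) (s : Fin n → ℕ) (j : Fin n) : (ZMod q)ˣ :=
  if h : Nat.Coprime (s j) q then ZMod.unitOfCoprime (s j) h else 1

theorem coe_toU (q : ℕ) (s : Fin n → ℕ) (j : Fin n) (h : Nat.Coprime (s j) q) :
    (toU q s j : ZMod q) = (s j : ZMod q) := by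
  unfold toU
  rw [dif_pos h, ZMod.coe_unitOfCoprime]

theorem iso_iff (q : ℕ) [NeZero q] (s s' : Fin n → ℕ) (hs : ∀ j, Nat.Coprime (s j) q)
    (hs' : ∀ j, Nat.Coprime (s' j) q) :
    (∃ σ : Equiv.Perm (Fin n), ∃ ε : Fin n → ℤ, (∀ j, ε j = 1 ∨ ε j = -1) ∧
        ∃ t : ℕ, Nat.Coprime t q ∧
          ∀ j, (s' j : ℤ) ≡ ε j * (t : ℤ) * (s (σ j) : ℤ) [ZMOD (q : ℤ)]) ↔
      IsoU (toU q s) (toU q s') := by
  constructor
  · rintro ⟨σ, ε, hε, t, ht, h⟩
    refine ⟨σ, fun j => if ε j = 1 then 1 else -1, ZMod.unitOfCoprime t ht, fun j => ?_⟩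
    rw [coe_toU q s' j (hs' j), coe_toU q s (σ j) (hs _), ZMod.coe_unitOfCoprime]
    have h1 := (ZMod.intCast_eq_intCast_iff _ _ q).mpr (h j)
    push_cast at h1
    rw [h1]
    rcases hε j with h2 | h2
    · simp [h2]
    · simp only [h2]
      norm_num
  · rintro ⟨σ, ε, t, h⟩
    refine ⟨σ, fun j => (ε j : ℤ), fun j => ?_, (t : ZMod q).val, ZMod.val_coe_unit_coprime t,
      fun j => ?_⟩
    · beta_reduce
      rcases Int.units_eq_one_or (ε j) with h1 | h1 <;> rw [h1] <;> simp
    · rw [← ZMod.intCast_eq_intCast_iff]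
      have h1 := h j
      rw [coe_toU q s' j (hs' j), coe_toU q s (σ j) (hs _)] at h1
      push_cast
      rw [ZMod.natCast_zmod_val]
      exact h1

open Classical in
theorem spec_iff (q : ℕ) (s s' : Fin n → ℕ) (hs : ∀ j, Nat.Coprime (s j) q)
    (hs' : ∀ j, Nat.Coprime (s' j) q) :
    (∀ k : ℕ,
        ((Fintype.piFinset (fun _ : Fin n => Finset.Icc (-(k : ℤ)) (k : ℤ))).filter
            (fun a => ∑ j, |a j| = (k : ℤ) ∧
              (∑ j, a j * (s j : ℤ)) ≡ 0 [ZMOD (q : ℤ)])).card =
        ((Fintype.piFinset (fun _ : Fin n => Finset.Icc (-(k : ℤ)) (k : ℤ))).filter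
            (fun a => ∑ j, |a j| = (k : ℤ) ∧
              (∑ j, a j * (s' j : ℤ)) ≡ 0 [ZMOD (q : ℤ)])).card) ↔
      ∀ t, latN q (fun j => (toU q s j : ZMod q)) t = latN q (fun j => (toU q s' j : ZMod q)) t := by
  have key : ∀ (w : Fin n → ℕ), (∀ j, Nat.Coprime (w j) q) → ∀ k : ℕ,
      ((Fintype.piFinset (fun _ : Fin n => Finset.Icc (-(k : ℤ)) (k : ℤ))).filter
            (fun a => ∑ j, |a j| = (k : ℤ) ∧
              (∑ j, a j * (w j : ℤ)) ≡ 0 [ZMOD (q : ℤ)])).card =
        latN q (fun j => (toU q w j : ZMod q)) k := by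
    intro w hw k
    unfold latN
    congr 1
    ext a
    rw [Finset.mem_filter, Finset.mem_filter]
    refine and_congr_right fun _ => and_congr_right fun _ => ?_
    rw [← ZMod.intCast_eq_intCast_iff]
    push_cast
    simp only [fun j => coe_toU q w j (hw j)]
  constructor
  · intro h t
    rw [← key s hs t, ← key s' hs' t]
    exact h t
  · intro h t
    rw [key s hs t, key s' hs' t]
    exact h t

theorem card_image_eq_of_kernel {α β γ : Type*} [DecidableEq β] [DecidableEq γ] (A : Finset α)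
    (f : α → β) (g : α → γ)
    (h : ∀ a ∈ A, ∀ b ∈ A, f a = f b ↔ g a = g b) : (A.image f).card = (A.image g).card := by
  have h1 : (A.image f).card = (A.image (fun a => (f a, g a))).card := by
    have : A.image f = (A.image (fun a => (f a, g a))).image Prod.fst := by
      rw [Finset.image_image]
      rfl
    rw [this]
    apply Finset.card_image_of_injOn
    intro x hx y hy hxy
    rw [Finset.mem_coe, Finset.mem_image] at hx hy
    obtain ⟨a, ha, rfl⟩ := hx
    obtain ⟨b, hb, rfl⟩ := hy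
    exact Prod.ext hxy ((h a ha b hb).mp hxy)
  have h2 : (A.image g).card = (A.image (fun a => (f a, g a))).card := by
    have : A.image g = (A.image (fun a => (f a, g a))).image Prod.snd := by
      rw [Finset.image_image]
      rfl
    rw [this]
    apply Finset.card_image_of_injOn
    intro x hx y hy hxy
    rw [Finset.mem_coe, Finset.mem_image] at hx hy
    obtain ⟨a, ha, rfl⟩ := hx
    obtain ⟨b, hb, rfl⟩ := hy
    exact Prod.ext ((h a ha b hb).mpr hxy) hxy
  rw [h1, h2]

open Classical in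
/-- The density theorem. -/
theorem density (n : ℕ) (hn : 1 ≤ n) (S : ℕ → Finset (Fin n → ℕ))
    (hS : ∀ q : ℕ, S q = Fintype.piFinset
      (fun _ : Fin n => (Finset.range q).filter (fun a => Nat.Coprime a q)))
    (Iso : ℕ → (Fin n → ℕ) → (Fin n → ℕ) → Prop)
    (hIso : ∀ (q : ℕ) (s s' : Fin n → ℕ), Iso q s s' ↔
      ∃ σ : Equiv.Perm (Fin n), ∃ ε : Fin n → ℤ, (∀ j, ε j = 1 ∨ ε j = -1) ∧
        ∃ t : ℕ, Nat.Coprime t q ∧
          ∀ j, (s' j : ℤ) ≡ ε j * (t : ℤ) * (s (σ j) : ℤ) [ZMOD (q : ℤ)])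
    (Spec : ℕ → (Fin n → ℕ) → (Fin n → ℕ) → Prop)
    (hSpec : ∀ (q : ℕ) (s s' : Fin n → ℕ), Spec q s s' ↔
      ∀ k : ℕ,
        ((Fintype.piFinset (fun _ : Fin n => Finset.Icc (-(k : ℤ)) (k : ℤ))).filter
            (fun a => ∑ j, |a j| = (k : ℤ) ∧
              (∑ j, a j * (s j : ℤ)) ≡ 0 [ZMOD (q : ℤ)])).card =
        ((Fintype.piFinset (fun _ : Fin n => Finset.Icc (-(k : ℤ)) (k : ℤ))).filter
            (fun a => ∑ j, |a j| = (k : ℤ) ∧
              (∑ j, a j * (s' j : ℤ)) ≡ 0 [ZMOD (q : ℤ)])).card) :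
    Filter.Tendsto (fun x : ℕ =>
      (∑ q ∈ Finset.Icc 1 x,
          ((((S q).filter (fun s => ∀ s' ∈ S q, Spec q s s' → Iso q s s')).image
              (fun s => (S q).filter (fun s' => Iso q s s'))).card : ℝ)) /
      (∑ q ∈ Finset.Icc 1 x,
          (((S q).image (fun s => (S q).filter (fun s' => Iso q s s'))).card : ℝ)))
    Filter.atTop (nhds 1) := by
  have hmem : ∀ q (s : Fin n → ℕ), s ∈ S q ↔ ∀ j, s j < q ∧ Nat.Coprime (s j) q := by
    intro q s
    rw [hS, Fintype.mem_piFinset]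
    simp only [Finset.mem_filter, Finset.mem_range]
  have hI : ∀ (q : ℕ) [NeZero q], ∀ s ∈ S q, ∀ s' ∈ S q, (Iso q s s' ↔ IsoU (toU q s) (toU q s')) := by
    intro q _ s hs s' hs'
    rw [hIso]
    exact iso_iff q s s' (fun j => ((hmem q s).mp hs j).2) (fun j => ((hmem q s').mp hs' j).2)
  have hSp : ∀ q, ∀ s ∈ S q, ∀ s' ∈ S q, (Spec q s s' ↔
      ∀ t, latN q (fun j => (toU q s j : ZMod q)) t =
        latN q (fun j => (toU q s' j : ZMod q)) t) := by
    intro q s hs s' hs'
    rw [hSpec]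
    exact spec_iff q s s' (fun j => ((hmem q s).mp hs j).2) (fun j => ((hmem q s').mp hs' j).2)
  -- a section of `toU`
  have hsec : ∀ (q : ℕ) [NeZero q], ∀ u : Fin n → (ZMod q)ˣ, ∃ s ∈ S q, toU q s = u := by
    intro q _ u
    refine ⟨fun j => (u j : ZMod q).val, ?_, ?_⟩
    · rw [hmem]
      exact fun j => ⟨ZMod.val_lt _, ZMod.val_coe_unit_coprime (u j)⟩
    · funext j
      apply Units.ext
      rw [coe_toU q _ j (ZMod.val_coe_unit_coprime (u j)), ZMod.natCast_zmod_val]
  -- classes
  have hker : ∀ (q : ℕ) [NeZero q], ∀ A ⊆ S q,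
      (A.image (fun s => (S q).filter (fun s' => Iso q s s'))).card =
      ((A.image (toU q)).image clU).card := by
    intro q _ A hA
    rw [Finset.image_image]
    apply card_image_eq_of_kernel
    intro a ha b hb
    rw [Function.comp_apply, Function.comp_apply, clU_eq_iff]
    constructor
    · intro h
      have h1 : b ∈ (S q).filter (fun s' => Iso q b s') := by
        rw [Finset.mem_filter]
        exact ⟨hA hb, (hI q b (hA hb) b (hA hb)).mpr (isoU_refl _)⟩
      rw [← h, Finset.mem_filter] at h1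
      exact (hI q a (hA ha) b (hA hb)).mp h1.2
    · intro h
      ext w
      rw [Finset.mem_filter, Finset.mem_filter]
      refine and_congr_right fun hw => ?_
      rw [hI q a (hA ha) w hw, hI q b (hA hb) w hw]
      exact ⟨fun h1 => isoU_trans (isoU_symm h) h1, fun h1 => isoU_trans h h1⟩
  have himg : ∀ (q : ℕ) [NeZero q], (S q).image (toU q) = (univ : Finset (Fin n → (ZMod q)ˣ)) := by
    intro q _
    rw [Finset.eq_univ_iff_forall]
    intro u
    obtain ⟨s, hs, hsu⟩ := hsec q u
    exact Finset.mem_image.mpr ⟨s, hs, hsu⟩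
  have hbad : ∀ (q : ℕ) [NeZero q], ((S q).filter
      (fun s => ¬ ∀ s' ∈ S q, Spec q s s' → Iso q s s')).image (toU q) =
      (univ : Finset (Fin n → (ZMod q)ˣ)).filter Bad := by
    intro q _
    ext u
    rw [Finset.mem_image, Finset.mem_filter]
    constructor
    · rintro ⟨s, hs, rfl⟩
      rw [Finset.mem_filter] at hs
      obtain ⟨hs1, hs2⟩ := hs
      push Not at hs2
      obtain ⟨s', hs', h1, h2⟩ := hs2
      refine ⟨mem_univ _, toU q s', (hSp q s hs1 s' hs').mp h1, fun h3 => h2 ?_⟩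
      exact (hI q s hs1 s' hs').mpr h3
    · rintro ⟨-, v, hv1, hv2⟩
      obtain ⟨s, hs, rfl⟩ := hsec q u
      obtain ⟨s', hs', rfl⟩ := hsec q v
      refine ⟨s, ?_, rfl⟩
      rw [Finset.mem_filter]
      refine ⟨hs, fun h => hv2 ?_⟩
      exact (hI q s hs s' hs').mp (h s' hs' ((hSp q s hs s' hs').mpr hv1))
  -- the counting functions
  set T : ℕ → ℕ := fun q => ((S q).image (fun s => (S q).filter (fun s' => Iso q s s'))).card
    with hT
  set G : ℕ → ℕ := fun q => (((S q).filter (fun s => ∀ s' ∈ S q, Spec q s s' → Iso q s s')).image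
              (fun s => (S q).filter (fun s' => Iso q s s'))).card with hG
  set B : ℕ → ℕ := fun q => (((S q).filter
    (fun s => ¬ ∀ s' ∈ S q, Spec q s s' → Iso q s s')).image
              (fun s => (S q).filter (fun s' => Iso q s s'))).card with hBdef
  have hphi : ∀ (q : ℕ) [NeZero q], Fintype.card (ZMod q)ˣ = Nat.totient q := fun q _ =>
    ZMod.card_units_eq_totient q
  have hT' : ∀ (q : ℕ) [NeZero q],
      T q = ((univ : Finset (Fin n → (ZMod q)ˣ)).image clU).card := by
    intro q _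
    rw [← himg q]
    exact hker q (S q) (Finset.Subset.refl _)
  have hB' : ∀ (q : ℕ) [NeZero q],
      B q = (((univ : Finset (Fin n → (ZMod q)ˣ)).filter Bad).image clU).card := by
    intro q _
    rw [← hbad q]
    exact hker q _ (Finset.filter_subset _ _)
  have hTlow : ∀ q, 1 ≤ q → (Nat.totient q) ^ (n - 1) ≤ (n.factorial * 2 ^ n) * T q := by
    intro q hq
    have hne : NeZero q := ⟨by omega⟩
    have h1 := card_le_mul_image_clU (n := n) (q := q)
    rw [← hT' q, Fintype.card_fun, hphi q, Fintype.card_fin] at h1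
    have hpos : 0 < Nat.totient q := Nat.totient_pos.mpr hq
    apply Nat.le_of_mul_le_mul_right (c := Nat.totient q) _ hpos
    rw [← pow_succ, Nat.sub_add_cancel hn]
    refine h1.trans (le_of_eq ?_)
    ring
  refine final_limit n hn T G B ?_ ?_ ?_ ?_ hTlow ?_
  · intro q
    exact Finset.card_le_card (Finset.image_subset_image (Finset.filter_subset _ _))
  · intro q _
    have h1 : (S q).image (fun s => (S q).filter (fun s' => Iso q s s')) =
        (((S q).filter (fun s => ∀ s' ∈ S q, Spec q s s' → Iso q s s')).image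
              (fun s => (S q).filter (fun s' => Iso q s s'))) ∪
        (((S q).filter (fun s => ¬ ∀ s' ∈ S q, Spec q s s' → Iso q s s')).image
              (fun s => (S q).filter (fun s' => Iso q s s'))) := by
      rw [← Finset.image_union, Finset.filter_union_filter_not_eq]
    change ((S q).image (fun s => (S q).filter (fun s' => Iso q s s'))).card ≤ _
    rw [h1]
    exact Finset.card_union_le _ _
  · intro q _
    exact Finset.card_le_card (Finset.image_subset_image (Finset.filter_subset _ _))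
  · intro q hq
    have hne : NeZero q := ⟨by omega⟩
    have h1 := card_image_clU_mul_le hn (univ : Finset (Fin n → (ZMod q)ˣ))
      (fun _ _ _ => mem_univ _)
    rw [← hT' q, Finset.card_univ, Fintype.card_fun, hphi q, Fintype.card_fin] at h1
    have hpos : 0 < Nat.totient q := Nat.totient_pos.mpr hq
    have h2 : T q ≤ (Nat.totient q) ^ (n - 1) := by
      apply Nat.le_of_mul_le_mul_left (c := Nat.totient q) _ hpos
      rw [← pow_succ', Nat.sub_add_cancel hn]
      exact h1
    exact h2.trans (Nat.pow_le_pow_left (Nat.totient_le q) _)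
  · intro δ hδ
    have hK : (0 : ℝ) < (n.factorial : ℝ) * 2 ^ n := by positivity
    obtain ⟨P0, hP0⟩ := bad_small hn (δ / ((n.factorial : ℝ) * 2 ^ n)) (by positivity)
    refine ⟨P0, fun p m hp hpr hpm hm => ?_⟩
    have hne : NeZero (m * p) := ⟨(Nat.mul_pos hm hpr.pos).ne'⟩
    have h1 := hP0 p m hp hpr hpm hm hne
    have h2 := card_image_clU_mul_le hn ((univ : Finset (Fin n → (ZMod (m * p))ˣ)).filter Bad)
      (fun u hu t => by
        rw [Finset.mem_filter] at hu ⊢
        exact ⟨mem_univ _, bad_smul hu.2 t⟩)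
    rw [← hB' (m * p), hphi (m * p)] at h2
    have h3 := card_le_mul_image_clU (n := n) (q := m * p)
    rw [← hT' (m * p), hphi (m * p)] at h3
    have hpos : (0 : ℝ) < (Nat.totient (m * p) : ℝ) := by
      exact_mod_cast Nat.totient_pos.mpr (Nat.mul_pos hm hpr.pos)
    have h4 : (Nat.totient (m * p) : ℝ) * (B (m * p) : ℝ) ≤
        (((univ : Finset (Fin n → (ZMod (m * p))ˣ)).filter Bad).card : ℝ) := by
      exact_mod_cast h2
    have h5 : (Fintype.card (Fin n → (ZMod (m * p))ˣ) : ℝ) ≤
        ((n.factorial : ℝ) * 2 ^ n * (Nat.totient (m * p) : ℝ)) * (T (m * p) : ℝ) := by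
      exact_mod_cast h3
    have h6 : (Nat.totient (m * p) : ℝ) * (B (m * p) : ℝ) ≤
        (Nat.totient (m * p) : ℝ) * (δ * (T (m * p) : ℝ)) := by
      calc _ ≤ _ := h4
        _ ≤ δ / ((n.factorial : ℝ) * 2 ^ n) *
            (Fintype.card (Fin n → (ZMod (m * p))ˣ) : ℝ) := h1
        _ ≤ δ / ((n.factorial : ℝ) * 2 ^ n) *
            (((n.factorial : ℝ) * 2 ^ n * (Nat.totient (m * p) : ℝ)) * (T (m * p) : ℝ)) :=
            mul_le_mul_of_nonneg_left h5 (by positivity)
        _ = _ := by field_simp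
    exact le_of_mul_le_mul_left h6 hpos

end Pool.Agent.Hhelper63.Lens
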